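import Pool.Agent.Rgd.Clos
import Pool.Agent.NPC.More

/-!
# The local closure in polynomial time
-/

set_option autoImplicit false

namespace Pool.Rgd

open Pool.NPC Polynomial Pool.NPC.Enc Classical

/-- A graph on `n` vertices as a bit string: `n` in unary, a zero, then the `n²` entries of the
adjacency matrix, row by row. -/
noncomputable def encodeGraph {n : ℕ} (G : SimpleGraph (Fin n)) : List Bool :=
  List.replicate n true ++ false :: List.ofFn fun i : Fin (n * n) => decide (G.Adj i.divNat i.modNat)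

/-- some tuple of numbers below `n` satisfies `P` -/
noncomputable def anyT (c n : ℕ) (P : (Fin c → ℕ) → Bool) : Bool :=
  decide (∃ t : Fin c → ℕ, (∀ i, t i < n) ∧ P t = true)

theorem anyT_iff {c n : ℕ} {P : (Fin c → ℕ) → Bool} :
    anyT c n P = true ↔ ∃ t : Fin c → ℕ, (∀ i, t i < n) ∧ P t = true := by
  unfold anyT
  exact decide_eq_true_iff

/-- bounded quantifiers over tuples of a fixed length -/
theorem PT.anyT (c : ℕ) : ∀ {α : Type} [Enc α] {n : α → ℕ} {P : α → (Fin c → ℕ) → Bool},
    PT n → (∀ {β : Type} [Enc β] (g : β → α) (t : Fin c → β → ℕ), PT g → (∀ i, PT (t i)) →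
      PT (fun b => P (g b) fun i => t i b)) →
    PT (fun a => Rgd.anyT c (n a) (P a)) := by
  induction c with
  | zero =>
    intro α _ n P hn hP
    refine (hP (fun a => a) (fun i => i.elim0) PT.id (fun i => i.elim0)).congr fun a => ?_
    have : (∃ t : Fin 0 → ℕ, (∀ i, t i < n a) ∧ P a t = true) ↔
        P a (fun i => i.elim0) = true := by
      constructor
      · rintro ⟨t, _, ht⟩
        rwa [Subsingleton.elim t (fun i => i.elim0)] at ht
      · intro h
        exact ⟨fun i => i.elim0, fun i => i.elim0, h⟩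
    have h2 : P a (fun i => i.elim0) = P a (fun i => (fun i => i.elim0 : Fin 0 → α → ℕ) i a) := by
      congr 1
      exact Subsingleton.elim _ _
    rw [Bool.eq_iff_iff, anyT_iff, this, h2]
  | succ c ih =>
    intro α _ n P hn hP
    have h1 := ih (α := α × ℕ) (n := fun y => n y.1)
      (P := fun y t => P y.1 (Fin.cons y.2 t)) (PT.comp hn PT.fst) (by
        intro β _ g t hg ht
        have := hP (fun b => (g b).1) (fun i => Fin.cases (motive := fun _ => β → ℕ)
          (fun b => (g b).2) (fun i => t i) i) (PT.fst' hg) (fun i => by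
            refine Fin.cases ?_ (fun i => ?_) i
            · exact PT.snd' hg
            · exact ht i)
        refine this.congr fun b => ?_
        congr 1
        funext i
        refine Fin.cases ?_ (fun i => ?_) i <;> rfl)
    refine (PT.any hn h1).congr fun a => ?_
    rw [Bool.eq_iff_iff, anyT_iff]
    simp only [anyT_iff, List.any_eq_true, List.mem_range]
    constructor
    · rintro ⟨t, ht, hPt⟩
      refine ⟨t 0, ht 0, fun i => t i.succ, fun i => ht _, ?_⟩
      rw [show (Fin.cons (t 0) fun i => t i.succ : Fin (c + 1) → ℕ) = t from Fin.cons_self_tail t]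
      exact hPt
    · rintro ⟨x, hx, t, ht, hPt⟩
      refine ⟨Fin.cons x t, fun i => ?_, hPt⟩
      refine Fin.cases ?_ (fun i => ?_) i
      · exact hx
      · exact ht i

/-- entry of a matrix -/
def entry (M : List Bool) (n u v : ℕ) : Bool := M.getD (u * n + v) false

theorem PT.entry {α : Type} [Enc α] {M : α → List Bool} {n u v : α → ℕ} (hM : PT M) (hn : PT n)
    (hu : PT u) (hv : PT v) : PT (fun a => Rgd.entry (M a) (n a) (u a) (v a)) :=
  PT.getD hM (PT.add (PT.mul hu hn) hv)

/-- the test of one tuple -/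
noncomputable def test (d c : ℕ) (M : List Bool) (n u v : ℕ) (t : Fin c → ℕ) : Bool :=
  (Finset.univ : Finset ((Fin c → Fin c → Bool) × Fin c × Fin c)).toList.any fun x =>
    decide (Linked d (SimpleGraph.fromRel fun a b => x.1 a b = true) x.2.1 x.2.2) &&
    (decide (t x.2.1 = u) && (decide (t x.2.2 = v) &&
      (Finset.univ : Finset (Fin c × Fin c)).toList.all fun y =>
        (entry M n (t y.1) (t y.2) == x.1 y.1 y.2) &&
        (decide (y.1 = y.2) || !decide (t y.1 = t y.2))))

theorem PT.test (d c : ℕ) {β : Type} [Enc β] {M : β → List Bool} {n u v : β → ℕ}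
    {t : Fin c → β → ℕ} (hM : PT M) (hn : PT n) (hu : PT u) (hv : PT v) (ht : ∀ i, PT (t i)) :
    PT (fun b => Rgd.test d c (M b) (n b) (u b) (v b) fun i => t i b) := by
  refine PT.anyList _ fun x _ => PT.and (PT.const _) (PT.and (PT.eq (ht _) hu)
    (PT.and (PT.eq (ht _) hv) (PT.allList _ fun y _ => PT.and
      (PT.beqBool (PT.entry hM hn (ht _) (ht _)) (PT.const _)) (PT.or (PT.const _)
        (PT.not (PT.eq (ht _) (ht _)))))))

/-- one entry after one round -/
noncomputable def newBit (d C : ℕ) (n : ℕ) (M : List Bool) (u v : ℕ) : Bool :=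
  !decide (u = v) && (entry M n u v ||
    (List.range (C + 1)).any fun c => anyT c n fun t => test d c M n u v t)

theorem PT.newBit (d C : ℕ) {β : Type} [Enc β] {M : β → List Bool} {n u v : β → ℕ}
    (hM : PT M) (hn : PT n) (hu : PT u) (hv : PT v) :
    PT (fun b => Rgd.newBit d C (n b) (M b) (u b) (v b)) := by
  refine PT.and (PT.not (PT.eq hu hv)) (PT.or (PT.entry hM hn hu hv) (PT.anyList _ fun c _ => ?_))
  refine PT.anyT c (P := fun b t => Rgd.test d c (M b) (n b) (u b) (v b) t) hn ?_
  intro γ _ g t hg ht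
  exact PT.test d c (PT.comp hM hg) (PT.comp hn hg) (PT.comp hu hg) (PT.comp hv hg) ht

/-- one round -/
noncomputable def stepM (d C n : ℕ) (M : List Bool) : List Bool :=
  (List.range (n * n)).flatMap fun i => [newBit d C n M (i / n) (i % n)]

theorem PT.stepM (d C : ℕ) {β : Type} [Enc β] {M : β → List Bool} {n : β → ℕ}
    (hM : PT M) (hn : PT n) : PT (fun b => Rgd.stepM d C (n b) (M b)) := by
  unfold Rgd.stepM
  refine PT.flatMap (g := fun x : β × ℕ =>
    [Rgd.newBit d C (n x.1) (M x.1) (x.2 / n x.1) (x.2 % n x.1)]) (PT.mul hn hn) ?_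
  have hn' : PT (fun x : β × ℕ => n x.1) := PT.comp hn PT.fst
  exact PT.cons (PT.newBit d C (PT.comp hM PT.fst) hn' (PT.div PT.snd hn') (PT.mod PT.snd hn'))
    (PT.const [])

theorem stepM_eq (d C n : ℕ) (M : List Bool) : stepM d C n M =
    (List.range (n * n)).map fun i => newBit d C n M (i / n) (i % n) := by
  unfold stepM
  rw [← List.map_eq_flatMap]

theorem length_stepM (d C n : ℕ) (M : List Bool) : (stepM d C n M).length = n * n := by
  rw [stepM_eq]
  simp

/-- the number of vertices of a coded graph -/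
def numV (x : List Bool) : ℕ :=
  (List.range x.length).countP fun i => (List.range (i + 1)).all fun j => x.getD j false

theorem PT.numV : PT Rgd.numV := by
  unfold Rgd.numV
  refine PT.count (p := fun y : List Bool × ℕ => (List.range (y.2 + 1)).all fun j =>
    y.1.getD j false) (PT.length PT.id) ?_
  exact PT.all (α := List Bool × ℕ) (p := fun z : (List Bool × ℕ) × ℕ => z.1.1.getD z.2 false)
    (PT.succ PT.snd) (PT.getD (PT.fst' PT.fst) PT.snd)

/-- the matrix after `k` rounds -/
noncomputable def iterM (d C : ℕ) (n : ℕ) (M : List Bool) (k : ℕ) : List Bool :=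
  Nat.rec (motive := fun _ => List Bool) M (fun _ s => stepM d C n s) k

/-- the algorithm -/
noncomputable def alg (d C : ℕ) (x : List Bool) : Bool :=
  (List.range (numV x)).all fun u => (List.range (numV x)).all fun v =>
    decide (u = v) || entry (iterM d C (numV x) (x.drop (numV x + 1)) (numV x * numV x)) (numV x) u v

theorem PT.iterM (d C : ℕ) : PT (fun x : List Bool =>
    Rgd.iterM d C (Rgd.numV x) (x.drop (Rgd.numV x + 1)) (Rgd.numV x * Rgd.numV x)) := by
  obtain ⟨R, hR⟩ := PT.numV.size
  unfold Rgd.iterM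
  refine PT.natRec (n := fun x : List Bool => Rgd.numV x * Rgd.numV x)
    (z := fun x => x.drop (Rgd.numV x + 1))
    (g := fun y : List Bool × (ℕ × List Bool) => Rgd.stepM d C (Rgd.numV y.1) y.2.2)
    (PT.mul PT.numV PT.numV) (PT.drop PT.id (PT.succ PT.numV))
    (PT.stepM d C (PT.snd' PT.snd) (PT.comp PT.numV PT.fst)) (X + R * R) ?_
  intro x i _
  have h1 : Rgd.numV x ≤ R.eval (sz x) := by simpa using hR x
  cases i with
  | zero =>
    show sz (x.drop (Rgd.numV x + 1)) ≤ _
    simp only [sz_list, List.length_drop, eval_add, eval_X]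
    omega
  | succ i =>
    show sz (Rgd.stepM d C (Rgd.numV x) _) ≤ _
    rw [sz_list, length_stepM]
    simp only [eval_add, eval_X, eval_mul]
    have := Nat.mul_le_mul h1 h1
    omega

theorem PT.alg (d C : ℕ) : PT (Rgd.alg d C) := by
  unfold Rgd.alg
  refine PT.all (p := fun y : List Bool × ℕ => (List.range (Rgd.numV y.1)).all fun v =>
    decide (y.2 = v) || Rgd.entry (Rgd.iterM d C (Rgd.numV y.1) (y.1.drop (Rgd.numV y.1 + 1))
      (Rgd.numV y.1 * Rgd.numV y.1)) (Rgd.numV y.1) y.2 v) PT.numV ?_
  refine PT.all (α := List Bool × ℕ) (p := fun z : (List Bool × ℕ) × ℕ =>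
    decide (z.1.2 = z.2) || Rgd.entry (Rgd.iterM d C (Rgd.numV z.1.1)
      (z.1.1.drop (Rgd.numV z.1.1 + 1)) (Rgd.numV z.1.1 * Rgd.numV z.1.1)) (Rgd.numV z.1.1) z.1.2
      z.2) (PT.comp PT.numV PT.fst) ?_
  refine PT.or (PT.eq (PT.snd' PT.fst) PT.snd) (PT.entry (PT.comp (PT.iterM d C)
    (PT.fst' PT.fst)) (PT.comp PT.numV (PT.fst' PT.fst)) (PT.snd' PT.fst) PT.snd)

end Pool.Rgd
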