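import Pool.Agent.Rgd.Alg

/-!
# Correctness of the algorithm
-/

set_option autoImplicit false

namespace Pool.Rgd

open Pool.NPC Classical

/-- the adjacency matrix as a bit string -/
noncomputable def matG {n : ℕ} (G : SimpleGraph (Fin n)) : List Bool :=
  List.ofFn fun i : Fin (n * n) => decide (G.Adj i.divNat i.modNat)

theorem index_lt {n u v : ℕ} (hu : u < n) (hv : v < n) : u * n + v < n * n := by
  calc u * n + v < u * n + n := by omega
    _ = (u + 1) * n := by ring
    _ ≤ n * n := Nat.mul_le_mul_right _ hu

theorem entry_matG {n : ℕ} (G : SimpleGraph (Fin n)) (u v : ℕ) (hu : u < n) (hv : v < n) :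
    entry (matG G) n u v = decide (G.Adj ⟨u, hu⟩ ⟨v, hv⟩) := by
  have hlt := index_lt hu hv
  unfold entry matG
  rw [List.getD_eq_getElem?_getD, List.getElem?_ofFn]
  simp only [hlt, dif_pos, Option.getD_some]
  have e1 : (⟨u * n + v, hlt⟩ : Fin (n * n)).divNat = ⟨u, hu⟩ := by
    apply Fin.ext
    show (u * n + v) / n = u
    rw [Nat.mul_comm, Nat.mul_add_div (by omega), Nat.div_eq_of_lt hv]
    simp
  have e2 : (⟨u * n + v, hlt⟩ : Fin (n * n)).modNat = ⟨v, hv⟩ := by
    apply Fin.ext
    show (u * n + v) % n = v
    rw [Nat.mul_comm, Nat.mul_add_mod, Nat.mod_eq_of_lt hv]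
  rw [e1, e2]

theorem test_iff (d : ℕ) {c n : ℕ} (G : SimpleGraph (Fin n)) (u v : ℕ) (t : Fin c → ℕ)
    (ht : ∀ i, t i < n) : test d c (matG G) n u v t = true ↔ Function.Injective t ∧
      ∃ i j, t i = u ∧ t j = v ∧ Linked d (G.comap fun i => (⟨t i, ht i⟩ : Fin n)) i j := by
  have key : ∀ A : Fin c → Fin c → Bool, (∀ a b, entry (matG G) n (t a) (t b) = A a b) →
      (SimpleGraph.fromRel fun a b => A a b = true) =
        G.comap fun i => (⟨t i, ht i⟩ : Fin n) := by
    intro A hA
    ext a b
    rw [SimpleGraph.fromRel_adj, SimpleGraph.comap_adj, ← hA, ← hA,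
      entry_matG G _ _ (ht a) (ht b), entry_matG G _ _ (ht b) (ht a)]
    simp only [decide_eq_true_eq]
    constructor
    · rintro ⟨_, h | h⟩
      · exact h
      · exact h.symm
    · intro h
      refine ⟨?_, Or.inl h⟩
      rintro rfl
      exact G.loopless.irrefl _ h
  unfold test
  simp only [List.any_eq_true, Finset.mem_toList, Finset.mem_univ, true_and, Bool.and_eq_true,
    decide_eq_true_eq, List.all_eq_true, beq_iff_eq, Bool.or_eq_true, Bool.not_eq_true',
    decide_eq_false_iff_not, Prod.exists, Prod.forall, forall_const]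
  constructor
  · rintro ⟨A, i, j, h1, h2, h3, h4⟩
    refine ⟨fun a b hab => ?_, i, j, h2, h3, ?_⟩
    · rcases (h4 a b).2 with h | h
      · exact h
      · exact absurd hab h
    · rw [← key A fun a b => (h4 a b).1]
      exact h1
  · rintro ⟨hinj, i, j, h2, h3, h1⟩
    refine ⟨fun a b => entry (matG G) n (t a) (t b), i, j, ?_, h2, h3, fun a b => ⟨rfl, ?_⟩⟩
    · rw [key _ fun a b => rfl]
      exact h1
    · by_cases hab : a = b
      · exact Or.inl hab
      · exact Or.inr fun h => hab (hinj h)

theorem newBit_matG (d C : ℕ) {n : ℕ} (G : SimpleGraph (Fin n)) (u v : ℕ) (hu : u < n)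
    (hv : v < n) :
    newBit d C n (matG G) u v = decide ((stepG d C G).Adj ⟨u, hu⟩ ⟨v, hv⟩) := by
  rw [Bool.eq_iff_iff]
  unfold newBit
  rw [entry_matG G u v hu hv]
  simp only [Bool.and_eq_true, Bool.not_eq_true', decide_eq_false_iff_not, Bool.or_eq_true,
    decide_eq_true_eq, List.any_eq_true, List.mem_range, anyT_iff, stepG, ne_eq, Fin.mk.injEq]
  refine and_congr_right fun huv => or_congr_right ?_
  constructor
  · rintro ⟨c, hc, t, ht, h⟩
    obtain ⟨hinj, i, j, hi, hj, hl⟩ := (test_iff d G u v t ht).1 h
    refine ⟨c, by omega, fun i => ⟨t i, ht i⟩, ?_, i, j, Fin.ext hi, Fin.ext hj, hl⟩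
    intro a b hab
    exact hinj (by simpa using hab)
  · rintro ⟨c, hc, f, hf, i, j, hi, hj, hl⟩
    refine ⟨c, by omega, fun a => (f a : ℕ), fun a => (f a).isLt, ?_⟩
    rw [test_iff d G u v _ (fun a => (f a).isLt)]
    refine ⟨fun a b hab => hf (Fin.ext hab), i, j, ?_, ?_, hl⟩
    · rw [hi]
    · rw [hj]

theorem stepM_matG (d C : ℕ) {n : ℕ} (G : SimpleGraph (Fin n)) :
    stepM d C n (matG G) = matG (stepG d C G) := by
  apply List.ext_getElem
  · rw [length_stepM]
    simp [matG]
  · intro i h1 h2
    rw [length_stepM] at h1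
    have hn : 0 < n := by
      by_contra hn
      have : n = 0 := by omega
      subst this
      omega
    have hu : i / n < n := Nat.div_lt_of_lt_mul h1
    have hv : i % n < n := Nat.mod_lt _ hn
    have e1 : (stepM d C n (matG G))[i]'(by rw [length_stepM]; exact h1) =
        newBit d C n (matG G) (i / n) (i % n) := by
      simp only [stepM_eq, List.getElem_map, List.getElem_range]
    have e2 : (matG (stepG d C G))[i] = decide ((stepG d C G).Adj ⟨i / n, hu⟩ ⟨i % n, hv⟩) := by
      simp only [matG, List.getElem_ofFn]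
      rfl
    rw [e1, e2, newBit_matG d C G _ _ hu hv]

theorem iterM_matG (d C : ℕ) {n : ℕ} (G : SimpleGraph (Fin n)) (k : ℕ) :
    iterM d C n (matG G) k = matG ((stepG d C)^[k] G) := by
  induction k with
  | zero => rfl
  | succ k ih =>
    show stepM d C n (iterM d C n (matG G) k) = _
    rw [ih, stepM_matG, Function.iterate_succ_apply']

theorem getD_encodeGraph {n : ℕ} (G : SimpleGraph (Fin n)) (i : ℕ) (hi : i ≤ n) :
    (encodeGraph G).getD i false = decide (i < n) := by
  rw [List.getD_eq_getElem?_getD]
  unfold encodeGraph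
  rcases Nat.lt_or_ge i n with h | h
  · rw [List.getElem?_append_left (by simpa using h)]
    simp [h]
  · have : i = n := by omega
    subst this
    rw [List.getElem?_append_right (by simp)]
    simp

theorem countP_range_lt (m k : ℕ) (h : k ≤ m) (P : ℕ → Bool) (hP : ∀ i, P i = decide (i < k)) :
    (List.range m).countP P = k := by
  induction m with
  | zero => simp; omega
  | succ m ih =>
    rw [List.range_succ, List.countP_append]
    by_cases hk : k ≤ m
    · rw [ih hk]
      simp [hP]
      omega
    · have hk' : k = m + 1 := by omega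
      subst hk'
      have : (List.range m).countP P = m := by
        rw [List.countP_eq_length.2]
        · simp
        · intro a ha
          simp only [List.mem_range] at ha
          rw [hP]
          simp; omega
      rw [this]
      simp [hP]

theorem numV_encodeGraph {n : ℕ} (G : SimpleGraph (Fin n)) : numV (encodeGraph G) = n := by
  unfold numV
  refine countP_range_lt _ _ ?_ _ ?_
  · simp [encodeGraph]
  · intro i
    rw [Bool.eq_iff_iff]
    simp only [List.all_eq_true, List.mem_range, decide_eq_true_eq]
    constructor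
    · intro h
      by_contra hi
      have := h n (by omega)
      rw [getD_encodeGraph G n le_rfl] at this
      simp at this
    · intro h j hj
      rw [getD_encodeGraph G j (by omega)]
      simp
      omega

theorem drop_encodeGraph {n : ℕ} (G : SimpleGraph (Fin n)) :
    (encodeGraph G).drop (n + 1) = matG G := by
  unfold encodeGraph matG
  have : n + 1 = (List.replicate n true).length + 1 := by simp
  rw [this, List.drop_append]
  simp

/-- the algorithm decides whether the local closure is complete -/
theorem alg_encodeGraph (d C : ℕ) {n : ℕ} (G : SimpleGraph (Fin n)) :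
    alg d C (encodeGraph G) = decide (∀ u v, u ≠ v → (clos d C G).Adj u v) := by
  unfold alg
  rw [numV_encodeGraph, drop_encodeGraph, iterM_matG]
  have hc : (stepG d C)^[n * n] G = clos d C G := by
    unfold clos
    rw [Fintype.card_fin]
  rw [hc, Bool.eq_iff_iff]
  simp only [List.all_eq_true, List.mem_range, Bool.or_eq_true, decide_eq_true_eq]
  constructor
  · intro h u v huv
    rcases h u u.isLt v v.isLt with h | h
    · exact absurd (Fin.ext h) huv
    · rw [entry_matG _ _ _ u.isLt v.isLt] at h
      simpa using h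
  · intro h u hu v hv
    by_cases huv : u = v
    · exact Or.inl huv
    · refine Or.inr ?_
      rw [entry_matG _ _ _ hu hv]
      simpa using h ⟨u, hu⟩ ⟨v, hv⟩ (by simpa using huv)

end Pool.Rgd
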