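import Pool.Agent.Rgd.Defs

/-!
# The local closure of a graph
-/

set_option autoImplicit false

namespace Pool.Rgd

open Finset Classical

/-- one round of the local closure -/
def stepG (d C : ℕ) {V : Type} (G : SimpleGraph V) : SimpleGraph V where
  Adj u v := u ≠ v ∧ (G.Adj u v ∨ ∃ c ≤ C, ∃ f : Fin c → V, Function.Injective f ∧
    ∃ i j, f i = u ∧ f j = v ∧ Linked d (G.comap f) i j)
  symm := ⟨by
    rintro u v ⟨h1, h2⟩
    refine ⟨h1.symm, ?_⟩
    rcases h2 with h2 | ⟨c, hc, f, hf, i, j, hi, hj, h⟩
    · exact Or.inl h2.symm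
    · refine Or.inr ⟨c, hc, f, hf, j, i, hj, hi, fun p q hp hq => ?_⟩
      rw [dist_comm (p j), dist_comm (q j)]
      exact h p q hp hq⟩
  loopless := ⟨fun u h => h.1 rfl⟩

/-- the local closure: `n²` rounds -/
def clos (d C : ℕ) {V : Type} [Fintype V] (G : SimpleGraph V) : SimpleGraph V :=
  (stepG d C)^[Fintype.card V * Fintype.card V] G

theorem le_stepG (d C : ℕ) {V : Type} (G : SimpleGraph V) : G ≤ stepG d C G :=
  fun _ _ h => ⟨h.ne, Or.inl h⟩

theorem le_iterate_stepG (d C : ℕ) {V : Type} (G : SimpleGraph V) (k : ℕ) :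
    G ≤ (stepG d C)^[k] G := by
  induction k with
  | zero => exact le_refl _
  | succ k ih =>
    rw [Function.iterate_succ_apply']
    exact ih.trans (le_stepG d C _)

theorem le_clos (d C : ℕ) {V : Type} [Fintype V] (G : SimpleGraph V) : G ≤ clos d C G :=
  le_iterate_stepG d C G _

/-- the number of pairs of adjacent vertices -/
private noncomputable def clo_num {V : Type} [Fintype V] (G : SimpleGraph V) : ℕ :=
  (univ.filter fun x : V × V => G.Adj x.1 x.2).card

private theorem clo_num_lt {V : Type} [Fintype V] {G H : SimpleGraph V} (h : G ≤ H)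
    (hne : G ≠ H) : clo_num G < clo_num H := by
  apply Finset.card_lt_card
  refine ⟨fun x hx => ?_, fun hsub => hne (le_antisymm h fun u v huv => ?_)⟩
  · simp only [mem_filter, mem_univ, true_and] at hx ⊢
    exact h hx
  · have := hsub (show (u, v) ∈ _ by simpa using huv)
    simpa using this

private theorem clo_fix (d C : ℕ) {V : Type} [Fintype V] (G : SimpleGraph V) (k : ℕ) :
    stepG d C ((stepG d C)^[k] G) = (stepG d C)^[k] G ∨ k ≤ clo_num ((stepG d C)^[k] G) := by
  induction k with
  | zero => exact Or.inr (Nat.zero_le _)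
  | succ k ih =>
    by_cases hk : stepG d C ((stepG d C)^[k] G) = (stepG d C)^[k] G
    · left
      rw [Function.iterate_succ_apply', hk, hk]
    · right
      rcases ih with ih | ih
      · exact absurd ih hk
      · rw [Function.iterate_succ_apply']
        have := clo_num_lt (le_stepG d C ((stepG d C)^[k] G)) (fun h => hk h.symm)
        omega

/-- Proof. Each round adds an edge or changes nothing; there are at most `n²` pairs. -/
theorem stepG_clos (d C : ℕ) {V : Type} [Fintype V] (G : SimpleGraph V) :
    stepG d C (clos d C G) = clos d C G := by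
  by_contra hne
  rcases clo_fix d C G (Fintype.card V * Fintype.card V) with h | h
  · exact hne h
  · have h1 := clo_num_lt (le_stepG d C (clos d C G)) (fun h => hne h.symm)
    have h2 : clo_num (stepG d C (clos d C G)) ≤ Fintype.card V * Fintype.card V := by
      refine (Finset.card_le_univ _).trans ?_
      rw [Fintype.card_prod]
    have h3 : Fintype.card V * Fintype.card V ≤ clo_num (clos d C G) := h
    omega

theorem closed_clos (d C : ℕ) {V : Type} [Fintype V] (G : SimpleGraph V) :
    Closed d C (clos d C G) := by
  intro c hc f hf i j hij hl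
  rw [← stepG_clos]
  exact ⟨fun h => hij (hf h), Or.inr ⟨c, hc, f, hf, i, j, rfl, rfl, hl⟩⟩

private theorem clo_linked (d C : ℕ) {V : Type} (G : SimpleGraph V) (k : ℕ) (u v : V)
    (h : ((stepG d C)^[k] G).Adj u v) : Linked d G u v := by
  induction k generalizing u v with
  | zero => exact fun p q _ hq => hq u v h
  | succ k ih =>
    rw [Function.iterate_succ_apply'] at h
    rcases h.2 with h2 | ⟨c, _, f, hf, i, j, hi, hj, hl⟩
    · exact ih u v h2
    · intro p q hp hq
      have := hl (p ∘ f) (q ∘ f) (AlgebraicIndependent.comp hp (fun x : Fin c × Fin d =>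
        (f x.1, x.2)) fun x y h => by
          simp only [Prod.mk.injEq] at h
          exact Prod.ext (hf h.1) h.2) (fun a b hab => ih (f a) (f b) hab p q hp hq)
      simpa [hi, hj] using this

theorem linked_of_clos (d C : ℕ) {V : Type} [Fintype V] (G : SimpleGraph V) (u v : V)
    (h : (clos d C G).Adj u v) : Linked d G u v :=
  clo_linked d C G _ u v h

theorem ggr_clos_iff (d C : ℕ) {V : Type} [Fintype V] (G : SimpleGraph V) :
    GGR d (clos d C G) ↔ GGR d G := by
  constructor
  · intro h p q hp hq
    exact h p q hp fun u v huv => linked_of_clos d C G u v huv p q hp hq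
  · intro h p q hp hq
    exact h p q hp fun u v huv => hq u v (le_clos d C G huv)

end Pool.Rgd
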