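import Pool.Agent.Rgd.Link

/-!
# A closed graph satisfies the rules
-/

set_option autoImplicit false

namespace Pool.Rgd

theorem append_inj {V : Type} {m n : ℕ} {a : Fin m → V} {b : Fin n → V}
    (ha : Function.Injective a) (hb : Function.Injective b) (hab : ∀ i j, a i ≠ b j) :
    Function.Injective (Fin.append a b) := by
  intro x y
  refine Fin.addCases (fun i => ?_) (fun i => ?_) x <;>
    refine Fin.addCases (fun j => ?_) (fun j => ?_) y <;> intro h
  · rw [Fin.append_left, Fin.append_left] at h
    rw [ha h]
  · rw [Fin.append_left, Fin.append_right] at h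
    exact absurd h (hab _ _)
  · rw [Fin.append_right, Fin.append_left] at h
    exact absurd h.symm (hab _ _)
  · rw [Fin.append_right, Fin.append_right] at h
    rw [hb h]

theorem exists_fin {V : Type} (S : Finset V) (n : ℕ) (h : S.card = n) :
    ∃ s : Fin n → V, Function.Injective s ∧ ∀ v, v ∈ S ↔ ∃ i, s i = v := by
  subst h
  refine ⟨fun i => (S.equivFin.symm i : V), fun i j hij => S.equivFin.symm.injective (Subtype.ext hij),
    fun v => ⟨fun hv => ⟨S.equivFin ⟨v, hv⟩, by simp⟩, ?_⟩⟩
  rintro ⟨i, rfl⟩
  exact (S.equivFin.symm i).2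

theorem Closed.rules {V : Type} {d C : ℕ} {G : SimpleGraph V} (h : Closed d C G)
    (hC : 2 * (d * (d + 1) + 1) + d + 3 ≤ C) : Rules d C G := by
  refine ⟨?_, ?_, ?_, ?_⟩
  · intro S x y hS hcl hxy hx hy
    obtain ⟨s, hs, hsS⟩ := exists_fin S _ hS
    have hsm : ∀ i, s i ∈ S := fun i => (hsS _).2 ⟨i, rfl⟩
    have hys : ∀ i, y ≠ s i := fun i => (hy _ (hsm i)).ne
    have hxs : ∀ i, x ≠ s i := fun i => (hx _ (hsm i)).ne
    let f : Fin (d + 1 + 1 + 1) → V := Fin.cons x (Fin.cons y s)
    have hf : Function.Injective f := by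
      rw [Fin.cons_injective_iff]
      refine ⟨?_, ?_⟩
      · rintro ⟨i, hi⟩
        revert hi
        refine Fin.cases ?_ (fun i => ?_) i
        · intro hi; exact hxy hi.symm
        · intro hi; exact hxs i hi.symm
      · rw [Fin.cons_injective_iff]
        refine ⟨?_, hs⟩
        rintro ⟨i, hi⟩
        exact hys i hi.symm
    refine h (d + 1 + 1 + 1) (by omega) f hf 0 1 (by simp [Fin.ext_iff]) ?_
    refine linked_lateration (G.comap f) (fun i => i.succ.succ)
      (fun i j hij => Fin.succ_injective _ (Fin.succ_injective _ hij)) ?_ 0 1 ?_ ?_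
    · intro i j hij
      exact hcl _ (hsm i) _ (hsm j) fun h => hij (hs h)
    · intro i
      exact hx _ (hsm i)
    · intro i
      exact hy _ (hsm i)
  · intro S T hS hT hST
    obtain ⟨T', hT', hT'c⟩ := Finset.exists_subset_card_eq hT
    obtain ⟨s, hs, hsS⟩ := exists_fin S _ hS
    obtain ⟨t, ht, htT⟩ := exists_fin T' _ hT'c
    have hadj : ∀ i j, G.Adj (s i) (t j) := fun i j =>
      hST _ ((hsS _).2 ⟨i, rfl⟩) _ (hT' ((htT _).2 ⟨j, rfl⟩))
    have hf := append_inj hs ht (fun i j => (hadj i j).ne)
    intro a ha b hb hab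
    obtain ⟨i, rfl⟩ := (hsS a).1 ha
    obtain ⟨j, rfl⟩ := (hsS b).1 hb
    have key := h (d + 1 + (d * (d + 1) + 1)) (by nlinarith) (Fin.append s t) hf
      (Fin.castAdd _ i) (Fin.castAdd _ j) (fun h => hab (by rw [Fin.castAdd_injective _ _ h])) ?_
    · simpa using key
    · refine linked_bipartite _ (fun i => Fin.castAdd _ i) (Fin.castAdd_injective _ _)
        (fun j => Fin.natAdd _ j) (Fin.natAdd_injective _ _) (fun i j => ?_) i j
      simpa using hadj i j
  · intro a b ha hb hab hA hB hm i j
    have hf := append_inj ha hb hab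
    have key := h (d * (d + 1) + 1 + (d * (d + 1) + 1)) (by omega) (Fin.append a b) hf
      (Fin.castAdd _ i) (Fin.natAdd _ j) (fun h => by
        have := congrArg Fin.val h
        simp at this
        omega) ?_
    · rw [Fin.append_left, Fin.append_right] at key
      exact key
    · refine linked_bars _ (fun i => Fin.castAdd _ i) (fun j => Fin.natAdd _ j)
        (Fin.castAdd_injective _ _) (Fin.natAdd_injective _ _) (fun i j h => by
          have := congrArg Fin.val h
          simp at this
          omega) (fun i j hij => ?_) (fun i j hij => ?_) (fun i => ?_) i j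
      · rw [SimpleGraph.comap_adj, Fin.append_left, Fin.append_left]
        exact hA i j hij
      · rw [SimpleGraph.comap_adj, Fin.append_right, Fin.append_right]
        exact hB i j hij
      · rw [SimpleGraph.comap_adj, Fin.append_left, Fin.append_right]
        exact hm i
  · intro U hU hG a ha b hb hab
    let e := U.equivFin
    have key := h U.card hU (fun i => (e.symm i : V))
      (fun i j hij => e.symm.injective (Subtype.ext hij)) (e ⟨a, ha⟩) (e ⟨b, hb⟩)
      (fun h => hab (by simpa using e.injective h)) ?_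
    · simpa using key
    · intro p q hp hq
      have := hG (fun x => p (e x)) (fun x => q (e x)) (hp.comp _ e.injective) (fun x y hxy => by
        refine hq _ _ ?_
        simpa using hxy) ⟨a, ha⟩ ⟨b, hb⟩
      exact this

end Pool.Rgd
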