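import Mathlib

/-!
# Generic global rigidity: definitions
-/

set_option autoImplicit false

namespace Pool.Rgd

/-- Euclidean `d`-space. -/
abbrev E (d : ℕ) : Type := EuclideanSpace ℝ (Fin d)

/-- A configuration `p : V → ℝ^d` is generic: its `d |V|` coordinates are algebraically
independent over `ℚ`. -/
def Gen {V : Type} {d : ℕ} (p : V → E d) : Prop :=
  AlgebraicIndependent ℚ (fun x : V × Fin d => (p x.1) x.2)

/-- `(G, p)` and `(G, q)` are equivalent frameworks. -/
def Eqv {V : Type} {d : ℕ} (G : SimpleGraph V) (p q : V → E d) : Prop :=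
  ∀ u v, G.Adj u v → dist (p u) (p v) = dist (q u) (q v)

/-- `G` is generically globally rigid in `ℝ^d`: for every generic `p`, every framework `(G, q)`
equivalent to `(G, p)` is congruent to it. -/
def GGR {V : Type} (d : ℕ) (G : SimpleGraph V) : Prop :=
  ∀ p q : V → E d, Gen p → Eqv G p q → ∀ u v, dist (p u) (p v) = dist (q u) (q v)

/-- the pair `x y` is globally linked in `G` for every generic configuration -/
def Linked {V : Type} (d : ℕ) (G : SimpleGraph V) (x y : V) : Prop :=
  ∀ p q : V → E d, Gen p → Eqv G p q → dist (p x) (p y) = dist (q x) (q y)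

/-- `A` is a clique -/
def Cl {V : Type} (G : SimpleGraph V) (A : Finset V) : Prop :=
  ∀ a ∈ A, ∀ b ∈ A, a ≠ b → G.Adj a b

/-- Any `t` pairwise non-adjacent vertices have degree sum at least `(d + ε) n`, where `n` is the
number of vertices. -/
def OreCond (d t : ℕ) (ε : ℝ) {V : Type} [Fintype V] (G : SimpleGraph V) : Prop :=
  ∀ I : Finset V, I.card = t → (∀ a ∈ I, ∀ b ∈ I, ¬ G.Adj a b) →
    ((d : ℝ) + ε) * (Fintype.card V : ℝ) ≤ ∑ v ∈ I, ((G.neighborSet v).ncard : ℝ)

/-- closed under the local rules on at most `C` vertices -/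
def Closed (d C : ℕ) {V : Type} (G : SimpleGraph V) : Prop :=
  ∀ c ≤ C, ∀ f : Fin c → V, Function.Injective f → ∀ i j, i ≠ j → Linked d (G.comap f) i j →
    G.Adj (f i) (f j)

/-- the rules which are used in the structure theorem -/
structure Rules (d C : ℕ) {V : Type} (G : SimpleGraph V) : Prop where
  r1 : ∀ (S : Finset V) (x y : V), S.card = d + 1 → Cl G S → x ≠ y → (∀ s ∈ S, G.Adj x s) →
    (∀ s ∈ S, G.Adj y s) → G.Adj x y
  r2 : ∀ S T : Finset V, S.card = d + 1 → d * (d + 1) + 1 ≤ T.card →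
    (∀ s ∈ S, ∀ t ∈ T, G.Adj s t) → Cl G S
  r3 : ∀ a b : Fin (d * (d + 1) + 1) → V, Function.Injective a → Function.Injective b →
    (∀ i j, a i ≠ b j) → (∀ i j, i ≠ j → G.Adj (a i) (a j)) → (∀ i j, i ≠ j → G.Adj (b i) (b j)) →
    (∀ i, G.Adj (a i) (b i)) → ∀ i j, G.Adj (a i) (b j)
  r4 : ∀ U : Finset V, U.card ≤ C → GGR d (G.induce (U : Set V)) → Cl G U

end Pool.Rgd
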