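import Pool.Agent.Rgd.Defs

/-!
# Derivations of the reals
-/

set_option autoImplicit false

namespace Pool.Rgd

open MvPolynomial TensorProduct

private theorem der_basis {t : Set ℝ} (ht : IsTranscendenceBasis ℚ ((↑) : t → ℝ)) (c : t → ℝ) :
    ∃ D : Derivation ℚ ℝ ℝ, ∀ i : t, D (i : ℝ) = c i := by
  let P := MvPolynomial t ℚ
  let _ : Algebra P ℝ := (aeval ((↑) : t → ℝ)).toRingHom.toAlgebra
  have hPR : ∀ x : P, algebraMap P ℝ x = aeval ((↑) : t → ℝ) x := fun x => rfl
  have : IsScalarTower ℚ P ℝ := IsScalarTower.of_algebraMap_eq fun x => by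
    rw [hPR, algebraMap_eq, aeval_C]
  have hinj : Function.Injective (algebraMap P ℝ) := ht.1
  have : FaithfulSMul P ℝ := (faithfulSMul_iff_algebraMap_injective P ℝ).2 hinj
  have halg : Algebra.IsAlgebraic P ℝ := by
    have h1 := ht.isAlgebraic
    refine ⟨fun y => ?_⟩
    refine (h1.isAlgebraic y).of_ringHom_of_comp_eq (g := RingHom.id ℝ)
      (f := (ht.1.aevalEquiv : P ≃ₐ[ℚ] _).toRingEquiv.toRingHom) ?_ ?_ ?_
    · exact (ht.1.aevalEquiv).surjective
    · exact fun a b h => h
    · ext x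
      · simp
      · simp
        exact (aeval_X ((↑) : t → ℝ) x).symm
  let K := FractionRing P
  let _ : Algebra K ℝ := FractionRing.liftAlgebra P ℝ
  have : IsScalarTower P K ℝ := FractionRing.isScalarTower_liftAlgebra P ℝ
  have : Algebra.IsAlgebraic K ℝ := (IsFractionRing.comap_isAlgebraic_iff (A := P)).1 halg
  have : CharZero K := by infer_instance
  have : Algebra.FormallyEtale P K := Algebra.FormallyEtale.of_isLocalization (nonZeroDivisors P)
  have : Algebra.FormallyEtale K ℝ := Algebra.FormallyEtale.of_isSeparable K ℝ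
  have : Algebra.FormallyEtale P ℝ := Algebra.FormallyEtale.comp P K ℝ
  let D0 : Derivation ℚ P ℝ := mkDerivation ℚ c
  let e := KaehlerDifferential.tensorKaehlerEquivOfFormallyEtale ℚ P ℝ
  let l : ℝ ⊗[P] (Ω[P⁄ℚ]) →ₗ[ℝ] ℝ := LinearMap.liftBaseChange ℝ D0.liftKaehlerDifferential
  let D : Derivation ℚ ℝ ℝ := (l ∘ₗ e.symm.toLinearMap).compDer (KaehlerDifferential.D ℚ ℝ)
  refine ⟨D, fun i => ?_⟩
  have h1 : (i : ℝ) = algebraMap P ℝ (X i) := by rw [hPR, aeval_X]
  show l (e.symm (KaehlerDifferential.D ℚ ℝ (i : ℝ))) = c i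
  rw [h1, KaehlerDifferential.tensorKaehlerEquivOfFormallyEtale_symm_D_algebraMap]
  show LinearMap.liftBaseChange ℝ D0.liftKaehlerDifferential _ = _
  rw [LinearMap.liftBaseChange_tmul, one_smul, Derivation.liftKaehlerDifferential_comp_D]
  exact mkDerivation_X _ _ _

/-- **(A1)** Derivations with prescribed values on an algebraically independent family. -/
theorem exists_derivation {ι : Type} {x : ι → ℝ} (hx : AlgebraicIndependent ℚ x) (c : ι → ℝ) :
    ∃ D : Derivation ℚ ℝ ℝ, ∀ i, D (x i) = c i := by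
  classical
  obtain ⟨t, ht1, ht⟩ := exists_isTranscendenceBasis_superset (R := ℚ) (s := Set.range x)
    hx.coe_range
  have hxi : Function.Injective x := hx.injective
  obtain ⟨D, hD⟩ := der_basis ht (fun y => if h : ∃ i, x i = y then c h.choose else 0)
  refine ⟨D, fun i => ?_⟩
  have := hD ⟨x i, ht1 ⟨i, rfl⟩⟩
  have h : ∃ j, x j = x i := ⟨i, rfl⟩
  simp only at this
  rw [this, dif_pos h]
  exact congrArg c (hxi h.choose_spec)

/-- **(A2)** Blocks. `β` is an injective family of blocks (indexed by `J`, each of shape `κ`) in an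
algebraically independent family; `Z` is a list of fewer reals than blocks. Then for some block
`j` every vector `c` is the value on this block of a derivation which kills `Z` and all `x i`
outside the blocks. -/
theorem exists_block {ι J κ ζ : Type} [Fintype J] [Finite κ] [Fintype ζ] {x : ι → ℝ}
    (hx : AlgebraicIndependent ℚ x) (β : J × κ → ι) (hβ : Function.Injective β) (Z : ζ → ℝ)
    (hc : Fintype.card ζ < Fintype.card J) :
    ∃ j : J, ∀ c : κ → ℝ, ∃ D : Derivation ℚ ℝ ℝ, (∀ z, D (Z z) = 0) ∧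
      (∀ k, D (x (β (j, k))) = c k) ∧ ∀ i, i ∉ Set.range β → D (x i) = 0 := by
  classical
  cases nonempty_fintype κ
  by_contra hcon
  push Not at hcon
  -- the derivations which kill `Z` and everything outside of the blocks
  let W0 : Submodule ℝ (Derivation ℚ ℝ ℝ) :=
    { carrier := {D | (∀ z, D (Z z) = 0) ∧ ∀ i, i ∉ Set.range β → D (x i) = 0}
      zero_mem' := ⟨fun z => rfl, fun i _ => rfl⟩
      add_mem' := fun {D D'} h h' => ⟨fun z => by simp [h.1 z, h'.1 z],
        fun i hi => by simp [h.2 i hi, h'.2 i hi]⟩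
      smul_mem' := fun r D h => ⟨fun z => by simp [h.1 z], fun i hi => by simp [h.2 i hi]⟩ }
  let res : J → Derivation ℚ ℝ ℝ →ₗ[ℝ] (κ → ℝ) := fun j =>
    { toFun := fun D k => D (x (β (j, k)))
      map_add' := fun D D' => by funext k; simp
      map_smul' := fun r D => by funext k; simp }
  have hl : ∀ j, ∃ l : (κ → ℝ) →ₗ[ℝ] ℝ, ∃ a : κ → ℝ, l a = 1 ∧ ∀ D ∈ W0, l (res j D) = 0 := by
    intro j
    obtain ⟨c, hcj⟩ := hcon j
    have hlt : W0.map (res j) < ⊤ := by
      rw [lt_top_iff_ne_top]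
      intro htop
      have : c ∈ W0.map (res j) := by rw [htop]; trivial
      obtain ⟨D, hD, hDc⟩ := this
      obtain ⟨i, hi, hi'⟩ := hcj D hD.1 (fun k => congrFun hDc k)
      exact hi' (hD.2 i hi)
    obtain ⟨l, hl0, hl1⟩ := Submodule.exists_le_ker_of_lt_top _ hlt
    obtain ⟨a, ha⟩ : ∃ a, l a ≠ 0 := by
      by_contra h
      push Not at h
      exact hl0 (LinearMap.ext h)
    refine ⟨l, (l a)⁻¹ • a, by rw [map_smul, smul_eq_mul, inv_mul_cancel₀ ha], fun D hD => ?_⟩
    exact hl1 ⟨D, hD, rfl⟩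
  choose l a ha hl0 using hl
  -- derivations supported on one block
  have hD : ∀ j, ∃ D : Derivation ℚ ℝ ℝ, (∀ j' k, D (x (β (j', k))) = if j' = j then a j k else 0) ∧
      ∀ i, i ∉ Set.range β → D (x i) = 0 := by
    intro j
    obtain ⟨D, hD⟩ := exists_derivation hx (fun i => if h : ∃ y, β y = i then
      (if h.choose.1 = j then a j h.choose.2 else 0) else 0)
    refine ⟨D, fun j' k => ?_, fun i hi => ?_⟩
    · rw [hD]
      have h : ∃ y, β y = β (j', k) := ⟨_, rfl⟩
      rw [dif_pos h]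
      have h2 : h.choose = (j', k) := hβ h.choose_spec
      rw [h2]
    · rw [hD, dif_neg (show ¬ ∃ y, β y = i from hi)]
  choose D hD1 hD2 using hD
  have hdep : ¬ LinearIndependent ℝ (fun j => fun z => D j (Z z)) := by
    intro h
    have := h.fintype_card_le_finrank
    simp at this
    omega
  obtain ⟨g, hg, j, hj⟩ := Fintype.not_linearIndependent_iff.1 hdep
  have hsum : ∀ y : ℝ, (∑ j, g j • D j) y = ∑ j, g j * D j y := by
    intro y
    rw [← Derivation.coeFnAddMonoidHom_apply]
    simp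
  have hmem : (∑ j, g j • D j) ∈ W0 := by
    refine ⟨fun z => ?_, fun i hi => ?_⟩
    · rw [hsum]
      have := congrFun hg z
      simpa using this
    · rw [hsum]
      exact Finset.sum_eq_zero fun j _ => by rw [hD2 j i hi, mul_zero]
  have h1 := hl0 j _ hmem
  have h2 : res j (∑ j, g j • D j) = g j • a j := by
    funext k
    show (∑ j, g j • D j) (x (β (j, k))) = _
    rw [hsum, Finset.sum_eq_single j]
    · rw [hD1]; simp
    · intro j' _ hne
      rw [hD1, if_neg hne.symm, mul_zero]
    · intro h; exact absurd (Finset.mem_univ _) h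
  rw [h2, map_smul, ha, smul_eq_mul, mul_one] at h1
  exact hj h1

end Pool.Rgd
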