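import Pool.Agent.Rgd.ClosedRules

/-!
# The large maximal cliques of a graph which satisfies the rules
-/

set_option autoImplicit false

namespace Pool.Rgd

open Finset Classical

variable {V : Type} [Fintype V] {d C : ℕ} {G : SimpleGraph V}

/-- the maximal cliques with at least `s` vertices -/
noncomputable def Fam (G : SimpleGraph V) (s : ℕ) : Finset (Finset V) :=
  univ.filter fun A => s ≤ A.card ∧ Cl G A ∧ ∀ v, v ∉ A → ¬ ∀ a ∈ A, G.Adj v a

theorem mem_Fam {G : SimpleGraph V} {s : ℕ} {A : Finset V} : A ∈ Fam G s ↔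
    s ≤ A.card ∧ Cl G A ∧ ∀ v, v ∉ A → ¬ ∀ a ∈ A, G.Adj v a := by
  simp [Fam]

/-- every clique with at least `s` vertices lies in a member of `Fam G s` -/
theorem exists_fam (G : SimpleGraph V) (s : ℕ) (A : Finset V) (hA : Cl G A) (hs : s ≤ A.card) :
    ∃ B ∈ Fam G s, A ⊆ B := by
  obtain ⟨B, hB, hmax⟩ := Finset.exists_max_image
    (univ.filter fun B : Finset V => A ⊆ B ∧ Cl G B) Finset.card
    ⟨A, by simp only [mem_filter, mem_univ, true_and]; exact ⟨subset_refl _, hA⟩⟩
  simp only [mem_filter, mem_univ, true_and] at hB hmax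
  refine ⟨B, mem_Fam.2 ⟨hs.trans (card_le_card hB.1), hB.2, fun v hv hadj => ?_⟩, hB.1⟩
  have := hmax (insert v B) ⟨hB.1.trans (subset_insert _ _), ?_⟩
  · rw [card_insert_of_notMem hv] at this
    omega
  · intro a ha b hb hab
    rcases Finset.mem_insert.1 ha with h3 | h3 <;> rcases Finset.mem_insert.1 hb with h4 | h4
    · exact absurd (h3.trans h4.symm) hab
    · rw [h3]; exact hadj b h4
    · rw [h4]; exact (hadj a h3).symm
    · exact hB.2 a h3 b h4 hab

/-- (b) A vertex outside of a large maximal clique has at most `d` neighbours in it. -/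
theorem fam_nbrs (h : Rules d C G) {s : ℕ} {A : Finset V} (hA : A ∈ Fam G s)
    {v : V} (hv : v ∉ A) : (A.filter fun a => G.Adj v a).card ≤ d := by
  by_contra hcon
  obtain ⟨_, hcl, hmax⟩ := mem_Fam.1 hA
  obtain ⟨S, hS, hSc⟩ := Finset.exists_subset_card_eq
    (s := A.filter fun a => G.Adj v a) (n := d + 1) (by omega)
  have hSA : ∀ x ∈ S, x ∈ A ∧ G.Adj v x := fun x hx => by simpa using hS hx
  refine hmax v hv fun y hy => ?_
  by_cases hyS : y ∈ S
  · exact (hSA y hyS).2
  · refine h.r1 S v y hSc (fun a ha b hb hab => hcl a (hSA a ha).1 b (hSA b hb).1 hab)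
      (fun h => hv (h ▸ hy)) (fun x hx => (hSA x hx).2) (fun x hx => ?_)
    exact hcl y hy x (hSA x hx).1 fun h => hyS (h ▸ hx)

/-- (a) Two different large maximal cliques have at most `d` common vertices. -/
theorem fam_inter (h : Rules d C G) {s : ℕ} {A B : Finset V} (hA : A ∈ Fam G s)
    (hB : B ∈ Fam G s) (hAB : A ≠ B) : (A ∩ B).card ≤ d := by
  obtain ⟨_, hclA, _⟩ := mem_Fam.1 hA
  obtain ⟨_, hclB, hmaxB⟩ := mem_Fam.1 hB
  obtain ⟨v, hvB, hvA⟩ : ∃ v ∈ B, v ∉ A := by
    by_contra hcon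
    push Not at hcon
    refine hAB (subset_antisymm (fun a ha => ?_) hcon)
    by_contra haB
    exact hmaxB a haB fun b hb => hclA a ha b (hcon b hb) fun h => haB (h ▸ hb)
  refine le_trans (card_le_card fun x hx => ?_) (fam_nbrs h hA hvA)
  rw [mem_inter] at hx
  rw [mem_filter]
  exact ⟨hx.1, hclB v hvB x hx.2 fun h => hvA (h ▸ hx.1)⟩

/-- (c) The edges between two large maximal cliques `A`, `B` are covered by few vertices. -/
theorem fam_cover (h : Rules d C G) {s : ℕ} {A B : Finset V}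
    (hA : A ∈ Fam G s) (hB : B ∈ Fam G s) :
    ∃ K : Finset V, K.card ≤ 2 * (d * (d + 1)) ∧
      ∀ u ∈ A \ B, ∀ v ∈ B \ A, G.Adj u v → u ∈ K ∨ v ∈ K := by
  obtain ⟨_, hclA, _⟩ := mem_Fam.1 hA
  obtain ⟨_, hclB, _⟩ := mem_Fam.1 hB
  let P : ℕ → Prop := fun m => ∃ a b : Fin m → V, Function.Injective a ∧ Function.Injective b ∧
    (∀ i, a i ∈ A \ B) ∧ (∀ i, b i ∈ B \ A) ∧ ∀ i, G.Adj (a i) (b i)
  have hN : ¬ P (d * (d + 1) + 1) := by
    rintro ⟨a, b, ha, hb, haA, hbB, hab⟩
    simp only [mem_sdiff] at haA hbB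
    have hr := h.r3 a b ha hb (fun i j hij => (haA i).2 (hij ▸ (hbB j).1))
      (fun i j hij => hclA _ (haA i).1 _ (haA j).1 fun h => hij (ha h))
      (fun i j hij => hclB _ (hbB i).1 _ (hbB j).1 fun h => hij (hb h)) hab
    have h1 := fam_nbrs h hA (hbB 0).2
    have h2 : (univ.image a) ⊆ A.filter fun x => G.Adj (b 0) x := by
      intro x hx
      obtain ⟨i, _, rfl⟩ := mem_image.1 hx
      rw [mem_filter]
      exact ⟨(haA i).1, (hr i 0).symm⟩
    have h3 := card_le_card h2
    rw [card_image_of_injective _ ha, card_univ, Fintype.card_fin] at h3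
    nlinarith
  have hex : ∃ m, ¬ P m := ⟨_, hN⟩
  have hle : Nat.find hex ≤ d * (d + 1) + 1 := Nat.find_min' hex hN
  have h0 : P 0 := ⟨fun i => i.elim0, fun i => i.elim0, fun i => i.elim0, fun i => i.elim0,
    fun i => i.elim0, fun i => i.elim0, fun i => i.elim0⟩
  have hne : Nat.find hex ≠ 0 := fun h => by
    have := Nat.find_spec hex
    rw [h] at this
    exact this h0
  obtain ⟨m, hm⟩ := Nat.exists_eq_succ_of_ne_zero hne
  have hPm : P m := by
    by_contra hcon
    have := Nat.find_min' hex hcon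
    omega
  have hPm1 : ¬ P (m + 1) := by
    have := Nat.find_spec hex
    rwa [hm] at this
  obtain ⟨a, b, ha, hb, haA, hbB, hab⟩ := hPm
  refine ⟨univ.image a ∪ univ.image b, ?_, fun u hu v hv huv => ?_⟩
  · refine (card_union_le _ _).trans ?_
    rw [card_image_of_injective _ ha, card_image_of_injective _ hb, card_univ, Fintype.card_fin]
    omega
  · by_contra hcon
    simp only [mem_union, mem_image, mem_univ, true_and, not_or, not_exists] at hcon
    refine hPm1 ⟨Fin.cons u a, Fin.cons v b, ?_, ?_, ?_, ?_, ?_⟩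
    · rw [Fin.cons_injective_iff]
      exact ⟨fun ⟨i, hi⟩ => hcon.1.1 i hi, ha⟩
    · rw [Fin.cons_injective_iff]
      exact ⟨fun ⟨i, hi⟩ => hcon.2.2 i hi, hb⟩
    · exact Fin.cases hu haA
    · exact Fin.cases hv hbB
    · exact Fin.cases huv hab

/-- (d) If there is no independent set of size `k + 1`, there are at most `k` large maximal
cliques. -/
theorem fam_card (h : Rules d C G) {s k : ℕ} (hs : k * (d + 2 * (d * (d + 1))) + d + 1 ≤ s)
    (hk : ∀ I : Finset V, I.card = k + 1 → ∃ a ∈ I, ∃ b ∈ I, G.Adj a b) :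
    (Fam G s).card ≤ k := by
  by_contra hcon
  obtain ⟨F, hF, hFc⟩ := Finset.exists_subset_card_eq (s := Fam G s) (n := k + 1) (by omega)
  let e := F.equivFinOfCardEq hFc
  let A : Fin (k + 1) → Finset V := fun i => (e.symm i : Finset V)
  have hA : ∀ i, A i ∈ Fam G s := fun i => hF (e.symm i).2
  have hAinj : ∀ i j, i ≠ j → A i ≠ A j := fun i j hij h =>
    hij (e.symm.injective (Subtype.ext h))
  have hcov : ∀ i j, ∃ K : Finset V, K.card ≤ 2 * (d * (d + 1)) ∧
      ∀ u ∈ A i \ A j, ∀ v ∈ A j \ A i, G.Adj u v → u ∈ K ∨ v ∈ K := fun i j =>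
    fam_cover h (hA i) (hA j)
  choose K hK1 hK2 using hcov
  let K' : Fin (k + 1) → Fin (k + 1) → Finset V := fun i j => if i < j then K i j else K j i
  have hK'1 : ∀ i j, (K' i j).card ≤ 2 * (d * (d + 1)) := by
    intro i j
    simp only [K']
    split_ifs
    · exact hK1 i j
    · exact hK1 j i
  have hbad : ∀ i, ∃ v ∈ A i, ∀ j, j ≠ i → v ∉ A j ∧ v ∉ K' i j := by
    intro i
    let B : Finset V := (univ.erase i).biUnion fun j => (A i ∩ A j) ∪ K' i j
    have hB : B.card ≤ k * (d + 2 * (d * (d + 1))) := by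
      have h1 : ((univ : Finset (Fin (k + 1))).erase i).card = k := by
        rw [card_erase_of_mem (mem_univ _), card_univ, Fintype.card_fin]
        rfl
      refine (card_biUnion_le_card_mul _ _ (d + 2 * (d * (d + 1))) fun j hj => ?_).trans ?_
      · refine (card_union_le _ _).trans ?_
        exact Nat.add_le_add (fam_inter h (hA i) (hA j) (hAinj i j (ne_of_mem_erase hj).symm))
          (hK'1 i j)
      · rw [h1]
    have hlt : B.card < (A i).card := by
      have := (mem_Fam.1 (hA i)).1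
      omega
    obtain ⟨v, hv, hvB⟩ := exists_mem_notMem_of_card_lt_card hlt
    refine ⟨v, hv, fun j hj => ?_⟩
    simp only [B, mem_biUnion, mem_erase, mem_univ, and_true, mem_union, mem_inter, not_exists,
      not_and, not_or] at hvB
    exact ⟨(hvB j hj).1 hv, (hvB j hj).2⟩
  choose v hvA hv using hbad
  have hvne : ∀ i j, i ≠ j → v i ≠ v j := fun i j hij h => by
    have := (hv i j hij.symm).1
    rw [h] at this
    exact this (hvA j)
  have hadj : ∀ i j, i < j → ¬ G.Adj (v i) (v j) := by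
    intro i j hij hG
    have hne : i ≠ j := hij.ne
    have h1 := hK2 i j (v i) (mem_sdiff.2 ⟨hvA i, (hv i j hne.symm).1⟩) (v j)
      (mem_sdiff.2 ⟨hvA j, (hv j i hne).1⟩) hG
    have e1 : K' i j = K i j := if_pos hij
    have e2 : K' j i = K i j := if_neg (by omega)
    rcases h1 with h1 | h1
    · exact (hv i j hne.symm).2 (e1 ▸ h1)
    · exact (hv j i hne).2 (e2 ▸ h1)
  have hinj : Function.Injective v := fun i j hij => by
    by_contra hne
    exact hvne i j hne hij
  obtain ⟨a, ha, b, hb, hab⟩ := hk (univ.image v) (by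
    rw [card_image_of_injective _ hinj, card_univ, Fintype.card_fin])
  obtain ⟨i, _, rfl⟩ := mem_image.1 ha
  obtain ⟨j, _, rfl⟩ := mem_image.1 hb
  rcases lt_trichotomy i j with hij | hij | hij
  · exact hadj i j hij hab
  · subst hij
    exact G.loopless.irrefl _ hab
  · exact hadj j i hij hab.symm

end Pool.Rgd
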