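import Pool.Agent.Rgd.Defs

/-!
# Frames: congruent families of `d + 1` affinely independent points
-/

set_option autoImplicit false

namespace Pool.Rgd

open Module

private theorem fr_inner {d : ℕ} (a b c a' b' c' : E d) (h1 : dist a c = dist a' c')
    (h2 : dist b c = dist b' c') (h3 : dist a b = dist a' b') :
    inner ℝ (a - c) (b - c) = inner ℝ (a' - c') (b' - c') := by
  rw [real_inner_eq_norm_mul_self_add_norm_mul_self_sub_norm_sub_mul_self_div_two,
    real_inner_eq_norm_mul_self_add_norm_mul_self_sub_norm_sub_mul_self_div_two]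
  rw [dist_eq_norm, dist_eq_norm] at h1 h2 h3
  rw [sub_sub_sub_cancel_right, sub_sub_sub_cancel_right, h1, h2, h3]

/-- **(L0)** If `S` is an affinely independent family of `d + 1` points of `ℝ^d` and `S'` has the
same distances, then `S'` is the image of `S` under an isometry `y ↦ R y + c`, and every point `x'`
with the same distances to `S'` as `x` to `S` is the image of `x`. -/
theorem frame {d : ℕ} (S S' : Fin (d + 1) → E d) (hS : AffineIndependent ℝ S)
    (h : ∀ i j, dist (S i) (S j) = dist (S' i) (S' j)) :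
    ∃ (R : E d ≃ₗᵢ[ℝ] E d) (c : E d), (∀ i, S' i = R (S i) + c) ∧
      ∀ x x' : E d, (∀ i, dist x (S i) = dist x' (S' i)) → x' = R x + c := by
  have hli : LinearIndependent ℝ (fun i : Fin d => S i.succ - S 0) := by
    have := (affineIndependent_iff_linearIndependent_vsub ℝ S 0).1 hS
    exact this.comp (fun i : Fin d => (⟨i.succ, Fin.succ_ne_zero i⟩ : {x : Fin (d + 1) // x ≠ 0}))
      (fun i j hij => by simpa using hij)
  let b : Basis (Fin d) ℝ (E d) :=
    Basis.mk hli (hli.span_eq_top_of_card_eq_finrank' (by simp)).ge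
  have hb : ∀ i, b i = S i.succ - S 0 := fun i => Basis.mk_apply _ _ i
  let R0 : E d →ₗ[ℝ] E d := b.constr ℝ (fun i => S' i.succ - S' 0)
  have hR0 : ∀ i, R0 (b i) = S' i.succ - S' 0 := fun i => b.constr_basis ℝ _ i
  have hin : ∀ x y, inner ℝ (R0 x) (R0 y) = inner ℝ x y := by
    have key : (innerₗ (E d)).compl₁₂ R0 R0 = innerₗ (E d) := by
      refine b.ext fun i => b.ext fun j => ?_
      show inner ℝ (R0 (b i)) (R0 (b j)) = inner ℝ (b i) (b j)
      rw [hR0, hR0, hb, hb]
      exact (fr_inner _ _ _ _ _ _ (h _ _) (h _ _) (h _ _)).symm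
    intro x y
    have := congrArg (fun f : E d →ₗ[ℝ] E d →ₗ[ℝ] ℝ => f x y) key
    exact this
  let R : E d ≃ₗᵢ[ℝ] E d := (R0.isometryOfInner hin).toLinearIsometryEquiv rfl
  have hR : ∀ x, R x = R0 x := fun x => rfl
  have hfirst : ∀ i, S' i = R (S i) + (S' 0 - R (S 0)) := by
    intro i
    refine Fin.cases ?_ (fun i => ?_) i
    · abel
    · have h1 : R (S i.succ - S 0) = S' i.succ - S' 0 := by
        rw [hR, ← hb, hR0]
      rw [map_sub] at h1
      rw [show R (S i.succ) + (S' 0 - R (S 0)) = (R (S i.succ) - R (S 0)) + S' 0 by abel, h1]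
      abel
  refine ⟨R, S' 0 - R (S 0), hfirst, fun x x' hx => ?_⟩
  have key : x' - S' 0 = R (x - S 0) := by
    have hlin : (innerₗ (E d)).flip (x' - S' 0) = (innerₗ (E d)).flip (R (x - S 0)) := by
      refine (b.map R.toLinearEquiv).ext fun i => ?_
      have e2 : (b.map R.toLinearEquiv) i = R (b i) := by
        rw [Basis.map_apply]
        rfl
      show inner ℝ ((b.map R.toLinearEquiv) i) (x' - S' 0) =
        inner ℝ ((b.map R.toLinearEquiv) i) (R (x - S 0))
      rw [e2, LinearIsometryEquiv.inner_map_map, hR, hR0, hb]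
      refine (fr_inner _ _ _ _ _ _ (h _ _) (hx 0) ?_).symm
      rw [dist_comm, hx, dist_comm]
    exact ext_inner_left ℝ fun v => congrArg (fun f : E d →ₗ[ℝ] ℝ => f v) hlin
  rw [map_sub] at key
  rw [show R x + (S' 0 - R (S 0)) = (R x - R (S 0)) + S' 0 by abel, ← key]
  abel

end Pool.Rgd
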