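import Pool.Agent.Rgd.Defs

/-!
# Generic configurations
-/

set_option autoImplicit false

namespace Pool.Rgd

open MvPolynomial

theorem Gen.comp {V W : Type} {d : ℕ} {p : V → E d} (hp : Gen p) (f : W → V)
    (hf : Function.Injective f) : Gen (p ∘ f) :=
  AlgebraicIndependent.comp hp (fun x : W × Fin d => (f x.1, x.2)) fun x y h => by
    simp only [Prod.mk.injEq] at h
    exact Prod.ext (hf h.1) h.2

/-- `d + 1` points of a generic configuration in `ℝ^d` are affinely independent. -/
theorem Gen.affineIndependent {V : Type} {d : ℕ} {p : V → E d} (hp : Gen p)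
    (s : Fin (d + 1) → V) (hs : Function.Injective s) :
    AffineIndependent ℝ (fun i => p (s i)) := by
  classical
  let M : Matrix (Fin d) (Fin d) (MvPolynomial (V × Fin d) ℚ) :=
    fun i j => X (s i.succ, j) - X (s 0, j)
  have hM : M.det ≠ 0 := by
    intro h0
    let φ : MvPolynomial (V × Fin d) ℚ →+* ℚ :=
      (MvPolynomial.eval fun x => if x.1 = s x.2.succ then (1 : ℚ) else 0)
    have h1 : φ M.det = 1 := by
      rw [RingHom.map_det]
      have : φ.mapMatrix M = 1 := by
        ext i j
        rw [RingHom.mapMatrix_apply, Matrix.map_apply, Matrix.one_apply]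
        simp only [M, φ, map_sub, eval_X]
        by_cases hij : i = j
        · subst hij
          have : s 0 ≠ s i.succ := fun h => (Fin.succ_ne_zero i) (hs h).symm
          simp [this]
        · have h2 : s i.succ ≠ s j.succ := fun h => hij (Fin.succ_injective _ (hs h))
          have h3 : s 0 ≠ s j.succ := fun h => (Fin.succ_ne_zero j) (hs h).symm
          simp [h2, h3, hij]
      rw [this, Matrix.det_one]
    rw [h0, map_zero] at h1
    exact zero_ne_one h1
  let A : Matrix (Fin d) (Fin d) ℝ := fun i j => (p (s i.succ)) j - (p (s 0)) j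
  have hA : A.det ≠ 0 := by
    have h2 : aeval (fun x : V × Fin d => (p x.1) x.2) M.det = A.det := by
      rw [AlgHom.map_det]
      congr 1
      ext i j
      simp [M, A]
    rw [← h2]
    intro h3
    exact hM (hp (by rw [h3, map_zero]))
  rw [affineIndependent_iff_linearIndependent_vsub ℝ _ 0]
  rw [← linearIndependent_equiv (finSuccAboveEquiv (0 : Fin (d + 1)))]
  have hrows := Matrix.linearIndependent_rows_of_det_ne_zero hA
  refine LinearIndependent.of_comp (WithLp.linearEquiv 2 ℝ (Fin d → ℝ)).toLinearMap ?_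
  have e : (⇑(WithLp.linearEquiv 2 ℝ (Fin d → ℝ)).toLinearMap ∘
      ((fun i : {x : Fin (d + 1) // x ≠ 0} => p (s i) -ᵥ p (s 0)) ∘
        ⇑(finSuccAboveEquiv (0 : Fin (d + 1))))) = fun i => A i := by
    funext i
    funext j
    simp only [Function.comp_apply, finSuccAboveEquiv_apply, Fin.succAbove_zero]
    rfl
  rw [e]
  exact hrows

private theorem ext_infinite {t : Set ℝ} (ht : IsTranscendenceBasis ℚ ((↑) : t → ℝ)) :
    t.Infinite := by
  intro hfin
  have h1 := ht.isAlgebraic
  have h2 := Algebra.IsAlgebraic.cardinalMk_le_max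
    (Algebra.adjoin ℚ (Set.range ((↑) : t → ℝ))) ℝ
  have h3 : Cardinal.mk (Algebra.adjoin ℚ (Set.range ((↑) : t → ℝ))) ≤ Cardinal.aleph0 := by
    rw [← Cardinal.mk_congr ht.1.aevalEquiv.toEquiv]
    refine (MvPolynomial.cardinalMk_le_max).trans ?_
    have : Finite t := hfin
    simp
  have h4 : Cardinal.mk ℝ ≤ Cardinal.aleph0 := h2.trans (max_le h3 le_rfl)
  rw [Cardinal.mk_real] at h4
  exact absurd h4 (not_le.2 Cardinal.aleph0_lt_continuum)

/-- A generic configuration on a subset of a finite set extends to a generic configuration. -/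
theorem Gen.extend {V W : Type} [Finite V] {d : ℕ} (f : W → V) (hf : Function.Injective f)
    {p : W → E d} (hp : Gen p) : ∃ p' : V → E d, Gen p' ∧ ∀ w, p' (f w) = p w := by
  classical
  let y : W × Fin d → ℝ := fun x => (p x.1) x.2
  have hy : AlgebraicIndependent ℚ y := hp
  obtain ⟨t, ht1, ht⟩ := exists_isTranscendenceBasis_superset (R := ℚ) (s := Set.range y)
    hy.coe_range
  have hW : Finite W := Finite.of_injective f hf
  have hinf : (t \ Set.range y).Infinite := (ext_infinite ht).diff (Set.finite_range y)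
  obtain ⟨g⟩ : Nonempty ((V × Fin d) ↪ (t \ Set.range y : Set ℝ)) := by
    have := hinf.to_subtype
    have h2 : Countable (V × Fin d) := inferInstance
    obtain ⟨g1, hg1⟩ := exists_injective_nat (V × Fin d)
    exact ⟨⟨fun x => Infinite.natEmbedding _ (g1 x), fun a b h =>
      hg1 ((Infinite.natEmbedding _).injective h)⟩⟩
  let z : V × Fin d → ℝ := fun x => if h : ∃ w, f w = x.1 then y (h.choose, x.2) else g x
  have hz1 : ∀ w k, z (f w, k) = y (w, k) := by
    intro w k
    have h : ∃ w', f w' = (f w, k).1 := ⟨w, rfl⟩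
    simp only [z]
    rw [dif_pos h, hf h.choose_spec]
  have hz2 : ∀ x : V × Fin d, (¬ ∃ w, f w = x.1) → z x = g x := by
    intro x h
    simp only [z]
    rw [dif_neg h]
  have hmem : ∀ x, z x ∈ t := by
    intro x
    by_cases h : ∃ w, f w = x.1
    · obtain ⟨w, hw⟩ := h
      have : x = (f w, x.2) := Prod.ext hw.symm rfl
      rw [this, hz1]
      exact ht1 ⟨_, rfl⟩
    · rw [hz2 x h]
      exact (g x).2.1
  have hinj : Function.Injective z := by
    intro a b hab
    by_cases ha : ∃ w, f w = a.1
    · obtain ⟨w, hw⟩ := ha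
      have ea : a = (f w, a.2) := Prod.ext hw.symm rfl
      by_cases hb : ∃ w, f w = b.1
      · obtain ⟨w', hw'⟩ := hb
        have eb : b = (f w', b.2) := Prod.ext hw'.symm rfl
        rw [ea, eb, hz1, hz1] at hab
        have := hy.injective hab
        rw [Prod.mk.injEq] at this
        rw [ea, eb, this.1, this.2]
      · rw [ea, hz1, hz2 b hb] at hab
        exact absurd ⟨_, hab⟩ (g b).2.2
    · by_cases hb : ∃ w, f w = b.1
      · obtain ⟨w', hw'⟩ := hb
        have eb : b = (f w', b.2) := Prod.ext hw'.symm rfl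
        rw [eb, hz1, hz2 a ha] at hab
        exact absurd ⟨_, hab.symm⟩ (g a).2.2
      · rw [hz2 a ha, hz2 b hb] at hab
        exact g.injective (Subtype.ext hab)
  refine ⟨fun v => WithLp.toLp 2 (fun k => z (v, k)), ?_, fun w => ?_⟩
  · have := ht.1.comp (fun x => (⟨z x, hmem x⟩ : t)) (fun a b h => hinj (by simpa using h))
    exact this
  · ext k
    exact hz1 w k

end Pool.Rgd
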