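import Pool.Agent.Rgd.Defs

/-!
# Ramsey's theorem for graphs
-/

set_option autoImplicit false

namespace Pool.Rgd

open Classical in
/-- Ramsey's theorem (two colours). -/
theorem ramsey (s t : ℕ) : ∃ R : ℕ, ∀ {V : Type} (G : SimpleGraph V) (X : Finset V),
    R ≤ X.card → (∃ A ⊆ X, A.card = s ∧ Cl G A) ∨
      ∃ I ⊆ X, I.card = t ∧ ∀ a ∈ I, ∀ b ∈ I, ¬ G.Adj a b := by
  induction s generalizing t with
  | zero =>
    exact ⟨0, fun G X _ => Or.inl ⟨∅, Finset.empty_subset _, rfl, fun a ha => by simp at ha⟩⟩
  | succ s ihs =>
    induction t with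
    | zero =>
      exact ⟨0, fun G X _ => Or.inr ⟨∅, Finset.empty_subset _, rfl, fun a ha => by simp at ha⟩⟩
    | succ t iht =>
      obtain ⟨R1, h1⟩ := ihs (t + 1)
      obtain ⟨R2, h2⟩ := iht
      refine ⟨R1 + R2 + 1, fun {V} G X hX => ?_⟩
      obtain ⟨v, hv⟩ : X.Nonempty := Finset.card_pos.1 (by omega)
      have hsplit : (X.erase v).card = ((X.erase v).filter fun w => G.Adj v w).card +
          ((X.erase v).filter fun w => ¬ G.Adj v w).card :=
        (Finset.card_filter_add_card_filter_not (s := X.erase v) (fun w => G.Adj v w)).symm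
      have hcard : (X.erase v).card + 1 = X.card := Finset.card_erase_add_one hv
      by_cases hc : R1 ≤ ((X.erase v).filter fun w => G.Adj v w).card
      · rcases h1 G _ hc with ⟨A, hA, hAc, hcl⟩ | ⟨I, hI, hIc, hind⟩
        · left
          have hvA : v ∉ A := fun h => by simpa using hA h
          refine ⟨insert v A, ?_, by rw [Finset.card_insert_of_notMem hvA, hAc], ?_⟩
          · intro w hw
            rcases Finset.mem_insert.1 hw with rfl | hw
            · exact hv
            · exact Finset.mem_of_mem_erase (Finset.mem_filter.1 (hA hw)).1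
          · intro a ha b hb hab
            rcases Finset.mem_insert.1 ha with h3 | h3 <;>
              rcases Finset.mem_insert.1 hb with h4 | h4
            · exact absurd (h3.trans h4.symm) hab
            · rw [h3]; exact (Finset.mem_filter.1 (hA h4)).2
            · rw [h4]; exact (Finset.mem_filter.1 (hA h3)).2.symm
            · exact hcl a h3 b h4 hab
        · exact Or.inr ⟨I, hI.trans ((Finset.filter_subset _ _).trans (Finset.erase_subset _ _)),
            hIc, hind⟩
      · have hc2 : R2 ≤ ((X.erase v).filter fun w => ¬ G.Adj v w).card := by omega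
        rcases h2 G _ hc2 with ⟨A, hA, hAc, hcl⟩ | ⟨I, hI, hIc, hind⟩
        · exact Or.inl ⟨A, hA.trans ((Finset.filter_subset _ _).trans (Finset.erase_subset _ _)),
            hAc, hcl⟩
        · right
          have hvI : v ∉ I := fun h => by simpa using hI h
          refine ⟨insert v I, ?_, by rw [Finset.card_insert_of_notMem hvI, hIc], ?_⟩
          · intro w hw
            rcases Finset.mem_insert.1 hw with rfl | hw
            · exact hv
            · exact Finset.mem_of_mem_erase (Finset.mem_filter.1 (hI hw)).1
          · intro a ha b hb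
            rcases Finset.mem_insert.1 ha with h3 | h3 <;>
              rcases Finset.mem_insert.1 hb with h4 | h4
            · rw [h3, h4]; exact G.loopless.irrefl _
            · rw [h3]; exact (Finset.mem_filter.1 (hI h4)).2
            · rw [h4]; exact fun h => (Finset.mem_filter.1 (hI h3)).2 h.symm
            · exact hind a h3 b h4

end Pool.Rgd
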