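import Pool.Agent.Rgd.Fam
import Pool.Agent.Rgd.Ramsey
import Pool.Agent.Rgd.Frame
import Pool.Agent.Rgd.GenPos

/-!
# The kernel of a graph which satisfies the rules
-/

set_option autoImplicit false

namespace Pool.Rgd

open Finset Classical

variable {V : Type} [Fintype V] {d C : ℕ} {G : SimpleGraph V}

/-- the vertices outside of all large maximal cliques, the vertices in two of them, and the
endpoints of the edges which are not inside one of them -/
noncomputable def Bad (G : SimpleGraph V) (s : ℕ) : Finset V :=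
  univ.filter fun v => (∀ A ∈ Fam G s, v ∉ A) ∨
    (∃ A ∈ Fam G s, ∃ B ∈ Fam G s, A ≠ B ∧ v ∈ A ∧ v ∈ B) ∨ ∃ w, G.Adj v w ∧ ∀ A ∈ Fam G s, ¬ (v ∈ A ∧ w ∈ A)

/-- Bound for the number of bad vertices. -/
theorem bad_card (h : Rules d C G) {s k x0 : ℕ} (hF : (Fam G s).card ≤ k)
    (hx : (univ.filter fun v => ∀ A ∈ Fam G s, v ∉ A).card ≤ x0) :
    (Bad G s).card ≤ x0 + k * k * d + x0 * k * d + k * k * (2 * (d * (d + 1)) * (d + 1)) := by
  set X : Finset V := univ.filter fun v => ∀ A ∈ Fam G s, v ∉ A with hX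
  set F := Fam G s with hFdef
  have hcov : ∀ A B : Finset V, ∃ K : Finset V, A ∈ F → B ∈ F → (K.card ≤ 2 * (d * (d + 1)) ∧
      ∀ u ∈ A \ B, ∀ v ∈ B \ A, G.Adj u v → u ∈ K ∨ v ∈ K) := by
    intro A B
    by_cases hA : A ∈ F
    · by_cases hB : B ∈ F
      · obtain ⟨K, hK⟩ := fam_cover h hA hB
        exact ⟨K, fun _ _ => hK⟩
      · exact ⟨∅, fun _ h => absurd h hB⟩
    · exact ⟨∅, fun h => absurd h hA⟩
  choose K hK using hcov
  -- neighbours of `w` in `A` if `w` is not in `A`
  let N : V → Finset V → Finset V := fun w A => if w ∈ A then ∅ else A.filter fun a => G.Adj w a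
  have hN : ∀ w, ∀ A ∈ F, (N w A).card ≤ d := by
    intro w A hA
    simp only [N]
    split_ifs with hw
    · simp
    · exact fam_nbrs h hA hw
  let S2 : Finset V := (F ×ˢ F).biUnion fun x => if x.1 = x.2 then ∅ else x.1 ∩ x.2
  let S3 : Finset V := (X ×ˢ F).biUnion fun x => N x.1 x.2
  let S4 : Finset V := (F ×ˢ F).biUnion fun x => (K x.1 x.2) ∪
    (K x.1 x.2).biUnion fun w => N w x.1
  have hsub : Bad G s ⊆ X ∪ S2 ∪ S3 ∪ S4 := by
    intro v hv
    simp only [Bad, mem_filter, mem_univ, true_and] at hv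
    simp only [mem_union]
    rcases hv with hv | ⟨A, hA, B, hB, hAB, hvA, hvB⟩ | ⟨w, hvw, hw⟩
    · left; left; left
      rw [hX, mem_filter]
      exact ⟨mem_univ _, hv⟩
    · left; left; right
      simp only [S2, mem_biUnion, mem_product]
      refine ⟨(A, B), ⟨hA, hB⟩, ?_⟩
      rw [if_neg hAB]
      exact mem_inter.2 ⟨hvA, hvB⟩
    · by_cases hvX : v ∈ X
      · left; left; left
        exact hvX
      · rw [hX, mem_filter] at hvX
        simp only [mem_univ, true_and, not_forall, not_not] at hvX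
        obtain ⟨A, hA, hvA⟩ := hvX
        have hwA : w ∉ A := fun h => hw A hA ⟨hvA, h⟩
        have hvN : v ∈ N w A := by
          simp only [N]
          rw [if_neg hwA, mem_filter]
          exact ⟨hvA, hvw.symm⟩
        by_cases hwX : w ∈ X
        · left; right
          simp only [S3, mem_biUnion, mem_product]
          exact ⟨(w, A), ⟨hwX, hA⟩, hvN⟩
        · rw [hX, mem_filter] at hwX
          simp only [mem_univ, true_and, not_forall, not_not] at hwX
          obtain ⟨B, hB, hwB⟩ := hwX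
          have hvB : v ∉ B := fun h => hw B hB ⟨h, hwB⟩
          right
          simp only [S4, mem_biUnion, mem_product, mem_union]
          refine ⟨(A, B), ⟨hA, hB⟩, ?_⟩
          rcases (hK A B hA hB).2 v (mem_sdiff.2 ⟨hvA, hvB⟩) w (mem_sdiff.2 ⟨hwB, hwA⟩) hvw with
            h1 | h1
          · exact Or.inl h1
          · exact Or.inr ⟨w, h1, hvN⟩
  have hS2 : S2.card ≤ k * k * d := by
    refine (card_biUnion_le_card_mul _ _ d fun x hx => ?_).trans ?_
    · rw [mem_product] at hx
      split_ifs with hxy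
      · simp
      · exact fam_inter h hx.1 hx.2 hxy
    · rw [card_product]
      exact Nat.mul_le_mul_right _ (Nat.mul_le_mul hF hF)
  have hS3 : S3.card ≤ x0 * k * d := by
    refine (card_biUnion_le_card_mul _ _ d fun x hx => ?_).trans ?_
    · rw [mem_product] at hx
      exact hN x.1 x.2 hx.2
    · rw [card_product]
      exact Nat.mul_le_mul_right _ (Nat.mul_le_mul hx hF)
  have hS4 : S4.card ≤ k * k * (2 * (d * (d + 1)) * (d + 1)) := by
    refine (card_biUnion_le_card_mul _ _ (2 * (d * (d + 1)) * (d + 1)) fun x hx => ?_).trans ?_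
    · rw [mem_product] at hx
      refine (card_union_le _ _).trans ?_
      have h1 := (hK x.1 x.2 hx.1 hx.2).1
      have h2 : ((K x.1 x.2).biUnion fun w => N w x.1).card ≤ (K x.1 x.2).card * d :=
        card_biUnion_le_card_mul _ _ d fun w _ => hN w x.1 hx.1
      have h3 : (K x.1 x.2).card * d ≤ 2 * (d * (d + 1)) * d := Nat.mul_le_mul_right _ h1
      calc _ ≤ 2 * (d * (d + 1)) + 2 * (d * (d + 1)) * d := by omega
        _ = 2 * (d * (d + 1)) * (d + 1) := by ring
    · rw [card_product]
      exact Nat.mul_le_mul_right _ (Nat.mul_le_mul hF hF)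
  calc (Bad G s).card ≤ (X ∪ S2 ∪ S3 ∪ S4).card := card_le_card hsub
    _ ≤ X.card + S2.card + S3.card + S4.card := by
      refine (card_union_le _ _).trans (Nat.add_le_add_right ?_ _)
      refine (card_union_le _ _).trans (Nat.add_le_add_right ?_ _)
      exact card_union_le _ _
    _ ≤ _ := by omega

/-- The kernel is generically globally rigid. `F` is a family of cliques, every vertex outside of
`U` lies in exactly one of them, every edge lies inside `U` or inside a clique of `F`, and every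
clique of `F` has at least `d + 1` vertices in `U`. -/
theorem kernel_ggr (F : Finset (Finset V)) (hF : ∀ A ∈ F, Cl G A) (U : Finset V)
    (hU : ∀ A ∈ F, d + 1 ≤ (U ∩ A).card) (h1 : ∀ v, v ∉ U → ∃! A, A ∈ F ∧ v ∈ A)
    (h2 : ∀ u v, G.Adj u v → (u ∈ U ∧ v ∈ U) ∨ ∃ A ∈ F, u ∈ A ∧ v ∈ A) (hG : GGR d G) :
    GGR d (G.induce (U : Set V)) := by
  intro p q hp hq
  obtain ⟨p', hp', hpp⟩ := hp.extend (fun x : (U : Set V) => (x : V)) Subtype.val_injective
  -- an extension of `q` by zero
  let q0 : V → E d := fun v => if hv : v ∈ U then q ⟨v, hv⟩ else 0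
  have hq0 : ∀ x : (U : Set V), q0 x = q x := by
    intro x
    simp only [q0]
    rw [dif_pos (show (x : V) ∈ U from x.2)]
  have hdist : ∀ u ∈ U, ∀ v ∈ U, G.Adj u v → dist (p' u) (p' v) = dist (q0 u) (q0 v) := by
    intro u hu v hv huv
    have e1 := hpp ⟨u, hu⟩
    have e2 := hpp ⟨v, hv⟩
    simp only at e1 e2
    rw [e1, e2]
    have e3 := hq0 ⟨u, hu⟩
    have e4 := hq0 ⟨v, hv⟩
    simp only at e3 e4
    rw [e3, e4]
    exact hq _ _ huv
  have hfr : ∀ A : Finset V, ∃ (R : E d ≃ₗᵢ[ℝ] E d) (c : E d), A ∈ F → ∀ u ∈ U, u ∈ A →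
      q0 u = R (p' u) + c := by
    intro A
    by_cases hA : A ∈ F
    · obtain ⟨S, hS, hSc⟩ := Finset.exists_subset_card_eq (hU A hA)
      obtain ⟨s, hs, hsS⟩ := exists_fin S _ hSc
      have hsm : ∀ i, s i ∈ U ∧ s i ∈ A := fun i => mem_inter.1 (hS ((hsS _).2 ⟨i, rfl⟩))
      have hd : ∀ u ∈ U, u ∈ A → ∀ i, dist (p' u) (p' (s i)) = dist (q0 u) (q0 (s i)) := by
        intro u hu huA i
        by_cases hui : u = s i
        · rw [hui, dist_self, dist_self]
        · exact hdist u hu _ (hsm i).1 (hF A hA u huA _ (hsm i).2 hui)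
      obtain ⟨R, c, _, h4⟩ := frame (fun i => p' (s i)) (fun i => q0 (s i))
        (hp'.affineIndependent s hs) (fun i j => hd _ (hsm i).1 (hsm i).2 j)
      exact ⟨R, c, fun _ u hu huA => h4 _ _ (hd u hu huA)⟩
    · exact ⟨LinearIsometryEquiv.refl ℝ _, 0, fun h => absurd h hA⟩
  choose R c hRc using hfr
  have hA1 : ∀ v, ∃ A : Finset V, v ∉ U → A ∈ F ∧ v ∈ A := by
    intro v
    by_cases hv : v ∈ U
    · exact ⟨∅, fun h => absurd hv h⟩
    · obtain ⟨A, hA, _⟩ := h1 v hv
      exact ⟨A, fun _ => hA⟩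
  choose A0 hA0 using hA1
  let q' : V → E d := fun v => if v ∈ U then q0 v else R (A0 v) (p' v) + c (A0 v)
  have hq' : ∀ A ∈ F, ∀ v ∈ A, q' v = R A (p' v) + c A := by
    intro A hA v hv
    simp only [q']
    split_ifs with hvU
    · exact hRc A hA v hvU hv
    · have := (h1 v hvU).unique (hA0 v hvU) ⟨hA, hv⟩
      rw [this]
  have hqU : ∀ v ∈ U, q' v = q0 v := fun v hv => if_pos hv
  have heq : Eqv G p' q' := by
    intro u v huv
    rcases h2 u v huv with ⟨hu, hv⟩ | ⟨A, hA, hu, hv⟩
    · rw [hqU u hu, hqU v hv]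
      exact hdist u hu v hv huv
    · rw [hq' A hA u hu, hq' A hA v hv, dist_add_right, (R A).dist_map]
  intro x y
  have := hG p' q' hp' heq x y
  rw [hpp, hpp, hqU _ x.2, hqU _ y.2, hq0, hq0] at this
  exact this

/-- **Structure theorem.** -/
theorem structure_theorem (d k : ℕ) : ∃ C0 : ℕ, ∀ C ≥ C0, ∀ {V : Type} [Fintype V]
    (G : SimpleGraph V), Rules d C G →
    (∀ I : Finset V, I.card = k + 1 → ∃ a ∈ I, ∃ b ∈ I, G.Adj a b) → GGR d G →
    ∀ u v, u ≠ v → G.Adj u v := by
  obtain ⟨s, hs⟩ : ∃ s, s = k * (d + 2 * (d * (d + 1))) + d + 1 := ⟨_, rfl⟩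
  obtain ⟨x0, hx0⟩ := ramsey s (k + 1)
  refine ⟨x0 + k * k * d + x0 * k * d + k * k * (2 * (d * (d + 1)) * (d + 1)) + k * (d + 1),
    fun C hC {V} _ G h hk hG => ?_⟩
  have hFc : (Fam G s).card ≤ k := fam_card h (by omega) hk
  have hx : (univ.filter fun v => ∀ A ∈ Fam G s, v ∉ A).card ≤ x0 := by
    by_contra hcon
    rcases hx0 G _ (by omega : x0 ≤ (univ.filter fun v => ∀ A ∈ Fam G s, v ∉ A).card) with
      ⟨A, hA, hAc, hcl⟩ | ⟨I, _, hIc, hind⟩
    · obtain ⟨B, hB, hAB⟩ := exists_fam G s A hcl (by omega)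
      obtain ⟨a, ha⟩ : A.Nonempty := card_pos.1 (by omega)
      have := hA ha
      simp only [mem_filter, mem_univ, true_and] at this
      exact this B hB (hAB ha)
    · obtain ⟨a, ha, b, hb, hab⟩ := hk I hIc
      exact hind a ha b hb hab
  have hbad := bad_card h hFc hx
  -- `d + 1` vertices of every large maximal clique
  have hT : ∀ A : Finset V, ∃ T ⊆ A, A ∈ Fam G s → T.card = d + 1 := by
    intro A
    by_cases hA : A ∈ Fam G s
    · obtain ⟨T, hT, hTc⟩ := Finset.exists_subset_card_eq (s := A) (n := d + 1) (by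
        have := (mem_Fam.1 hA).1
        omega)
      exact ⟨T, hT, fun _ => hTc⟩
    · exact ⟨∅, empty_subset _, fun h => absurd h hA⟩
  choose T hTA hTc using hT
  obtain ⟨U, hUdef⟩ : ∃ U : Finset V, U = Bad G s ∪ (Fam G s).biUnion T := ⟨_, rfl⟩
  have hUc : U.card ≤ C := by
    rw [hUdef]
    refine (card_union_le _ _).trans ?_
    have : ((Fam G s).biUnion T).card ≤ k * (d + 1) := by
      refine (card_biUnion_le_card_mul _ _ (d + 1) fun A hA => (hTc A hA).le).trans ?_
      exact Nat.mul_le_mul_right _ hFc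
    omega
  have hbadU : Bad G s ⊆ U := by
    rw [hUdef]
    exact subset_union_left
  have hTU : ∀ A ∈ Fam G s, T A ⊆ U := by
    intro A hA
    rw [hUdef]
    exact (subset_biUnion_of_mem T hA).trans subset_union_right
  have hUA : ∀ A ∈ Fam G s, d + 1 ≤ (U ∩ A).card := by
    intro A hA
    rw [← hTc A hA]
    exact card_le_card (subset_inter (hTU A hA) (hTA A))
  have hcl : Cl G U := by
    refine h.r4 U hUc (kernel_ggr (Fam G s) (fun A hA => (mem_Fam.1 hA).2.1) U hUA ?_ ?_ hG)
    · intro v hv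
      have hvb : v ∉ Bad G s := fun h => hv (hbadU h)
      simp only [Bad, mem_filter, mem_univ, true_and, not_or, not_forall, not_not] at hvb
      obtain ⟨⟨A, hA, hvA⟩, h2, _⟩ := hvb
      refine ⟨A, ⟨hA, hvA⟩, fun B hB => ?_⟩
      by_contra hne
      exact h2 ⟨B, hB.1, A, hA, hne, hB.2, hvA⟩
    · intro u v huv
      by_cases hA : ∃ A ∈ Fam G s, u ∈ A ∧ v ∈ A
      · exact Or.inr hA
      · push Not at hA
        refine Or.inl ⟨hbadU ?_, hbadU ?_⟩
        · simp only [Bad, mem_filter, mem_univ, true_and]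
          exact Or.inr (Or.inr ⟨v, huv, fun A hA' h => hA A hA' h.1 h.2⟩)
        · simp only [Bad, mem_filter, mem_univ, true_and]
          exact Or.inr (Or.inr ⟨u, huv.symm, fun A hA' h => hA A hA' h.2 h.1⟩)
  by_cases hne : (Fam G s).Nonempty
  · obtain ⟨A, hA⟩ := hne
    -- `U` is contained in every member
    have hUsub : ∀ B ∈ Fam G s, U ⊆ B := by
      intro B hB u hu
      by_contra huB
      have h1 := fam_nbrs h hB huB
      have h2 : U ∩ B ⊆ B.filter fun a => G.Adj u a := by
        intro w hw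
        rw [mem_inter] at hw
        rw [mem_filter]
        exact ⟨hw.2, hcl u hu w hw.1 fun h => huB (h ▸ hw.2)⟩
      have h3 := card_le_card h2
      have h4 := hUA B hB
      omega
    have huniq : ∀ B ∈ Fam G s, B = A := by
      intro B hB
      by_contra hBA
      have h1 := fam_inter h hB hA hBA
      have h2 : (U ∩ A).card ≤ (B ∩ A).card :=
        card_le_card (inter_subset_inter_right (hUsub B hB))
      have h3 := hUA A hA
      omega
    have hall : ∀ v, v ∈ A := by
      intro v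
      by_contra hv
      have hvb : v ∈ Bad G s := by
        simp only [Bad, mem_filter, mem_univ, true_and]
        left
        intro B hB
        rw [huniq B hB]
        exact hv
      exact hv (hUsub A hA (hbadU hvb))
    intro u v huv
    exact (mem_Fam.1 hA).2.1 u (hall u) v (hall v) huv
  · have hall : ∀ v, v ∈ U := by
      intro v
      refine hbadU ?_
      simp only [Bad, mem_filter, mem_univ, true_and]
      left
      intro A hA
      exact absurd ⟨A, hA⟩ hne
    intro u v huv
    exact hcl u (hall u) v (hall v) huv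

end Pool.Rgd
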