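import Pool.Agent.Rgd.Der
import Pool.Agent.Rgd.Frame
import Pool.Agent.Rgd.GenPos

/-!
# Globally linked pairs: lateration, bipartite graphs, two bodies joined by bars
-/

set_option autoImplicit false

namespace Pool.Rgd

open Module

/-- a derivation applied to the coordinates of a vector -/
noncomputable def dv {d : ℕ} (D : Derivation ℚ ℝ ℝ) (a : E d) : E d :=
  WithLp.toLp 2 fun k => D (a k)

theorem dv_apply {d : ℕ} (D : Derivation ℚ ℝ ℝ) (a : E d) (k : Fin d) : (dv D a) k = D (a k) := rfl

theorem dv_sub {d : ℕ} (D : Derivation ℚ ℝ ℝ) (a b : E d) : dv D (a - b) = dv D a - dv D b := by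
  ext k
  simp [dv_apply]

theorem dv_add {d : ℕ} (D : Derivation ℚ ℝ ℝ) (a b : E d) : dv D (a + b) = dv D a + dv D b := by
  ext k
  simp [dv_apply]

theorem der_norm_sq {d : ℕ} (D : Derivation ℚ ℝ ℝ) (a : E d) :
    D (‖a‖ ^ 2) = 2 * inner ℝ (dv D a) a := by
  rw [EuclideanSpace.norm_sq_eq, map_sum, PiLp.inner_apply, Finset.mul_sum]
  refine Finset.sum_congr rfl fun k _ => ?_
  rw [dv_apply, Real.norm_eq_abs, sq_abs, pow_two, Derivation.leibniz]
  simp only [smul_eq_mul, RCLike.inner_apply, conj_trivial]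
  ring

/-- differentiation of an equality of distances -/
theorem der_dist {d : ℕ} (D : Derivation ℚ ℝ ℝ) (a b a' b' : E d) (h : dist a b = dist a' b') :
    inner ℝ (dv D a - dv D b) (a - b) = inner ℝ (dv D a' - dv D b') (a' - b') := by
  rw [dist_eq_norm, dist_eq_norm] at h
  have h1 : D (‖a - b‖ ^ 2) = D (‖a' - b'‖ ^ 2) := by rw [h]
  rw [der_norm_sq, der_norm_sq, dv_sub, dv_sub] at h1
  linarith

theorem sum_single {d : ℕ} (y : E d) : y = ∑ k, y k • EuclideanSpace.single k (1 : ℝ) := by
  ext l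
  simp [Pi.single_apply]

/-- a linear map with constant entries commutes with the derivation -/
theorem dv_linear {d : ℕ} (D : Derivation ℚ ℝ ℝ) (L : E d →ₗ[ℝ] E d)
    (hL : ∀ k l, D ((L (EuclideanSpace.single k 1)) l) = 0) (y : E d) :
    dv D (L y) = L (dv D y) := by
  ext l
  have e1 : ∀ y : E d, (L y) l = ∑ k, y k * (L (EuclideanSpace.single k 1)) l := by
    intro y
    conv_lhs => rw [sum_single y]
    rw [map_sum]
    simp
  rw [dv_apply, e1, e1, map_sum]
  refine Finset.sum_congr rfl fun k _ => ?_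
  rw [Derivation.leibniz, hL, smul_zero, zero_add, dv_apply, smul_eq_mul, mul_comm]

theorem linked_lateration {V : Type} {d : ℕ} (G : SimpleGraph V) (s : Fin (d + 1) → V)
    (hs : Function.Injective s) (hcl : ∀ i j, i ≠ j → G.Adj (s i) (s j)) (x y : V)
    (hx : ∀ i, G.Adj x (s i)) (hy : ∀ i, G.Adj y (s i)) : Linked d G x y := by
  intro p q hp hq
  obtain ⟨R, c, _, h2⟩ := frame (fun i => p (s i)) (fun i => q (s i)) (hp.affineIndependent s hs)
    (fun i j => by
      by_cases hij : i = j
      · rw [hij, dist_self, dist_self]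
      · exact hq _ _ (hcl i j hij))
  rw [h2 (p x) (q x) fun i => hq _ _ (hx i), h2 (p y) (q y) fun i => hq _ _ (hy i),
    dist_add_right, R.dist_map]

/-- **(L2)** `d + 1` vertices `s i` with `d (d + 1) + 1` common neighbours `t j`. -/
theorem linked_bipartite {V : Type} {d : ℕ} (G : SimpleGraph V) (s : Fin (d + 1) → V)
    (hs : Function.Injective s) (t : Fin (d * (d + 1) + 1) → V) (ht : Function.Injective t)
    (h : ∀ i j, G.Adj (s i) (t j)) (i j : Fin (d + 1)) : Linked d G (s i) (s j) := by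
  intro p q hp hq
  obtain ⟨j0, hj0⟩ := exists_block (J := Fin (d * (d + 1) + 1)) (κ := Fin d) hp
    (fun y : Fin (d * (d + 1) + 1) × Fin d => (t y.1, y.2))
    (fun a b hab => by
      simp only [Prod.mk.injEq] at hab
      exact Prod.ext (ht hab.1) hab.2)
    (fun y : Fin (d + 1) × Fin d => (q (s y.1)) y.2) (by simp; nlinarith)
  set v := t j0 with hv
  -- the derivations
  have hD : ∀ c : E d, ∃ D : Derivation ℚ ℝ ℝ, dv D (p v) = c ∧ (∀ i, dv D (p (s i)) = 0) ∧
      ∀ i, dv D (q (s i)) = 0 := by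
    intro c
    obtain ⟨D, h1, h2, h3⟩ := hj0 c
    refine ⟨D, ?_, fun i => ?_, fun i => ?_⟩
    · ext k; exact h2 k
    · ext k
      refine h3 (s i, k) ?_
      rintro ⟨y, hy⟩
      simp only [Prod.mk.injEq] at hy
      exact (h i y.1).ne hy.1.symm
    · ext k
      exact h1 (i, k)
  have h1 : ∀ (D : Derivation ℚ ℝ ℝ), (∀ i, dv D (p (s i)) = 0) → (∀ i, dv D (q (s i)) = 0) →
      ∀ i, inner ℝ (dv D (p v)) (p v - p (s i)) = inner ℝ (dv D (q v)) (q v - q (s i)) := by
    intro D hp0 hq0 i
    have := der_dist D (p v) (p (s i)) (q v) (q (s i)) (hq _ _ (h i j0).symm)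
    rwa [hp0, hq0, sub_zero, sub_zero] at this
  let P : Fin d → E d := fun i => p (s i.succ) - p (s 0)
  let Q : Fin d → E d := fun i => q (s i.succ) - q (s 0)
  have h2 : ∀ (D : Derivation ℚ ℝ ℝ), (∀ i, dv D (p (s i)) = 0) → (∀ i, dv D (q (s i)) = 0) →
      ∀ i, inner ℝ (dv D (p v)) (P i) = inner ℝ (dv D (q v)) (Q i) := by
    intro D hp0 hq0 i
    have e1 := h1 D hp0 hq0 0
    have e2 := h1 D hp0 hq0 i.succ
    have e3 : P i = (p v - p (s 0)) - (p v - p (s i.succ)) := by simp only [P]; abel
    have e4 : Q i = (q v - q (s 0)) - (q v - q (s i.succ)) := by simp only [Q]; abel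
    rw [e3, e4, inner_sub_right (dv D (p v)) (p v - p (s 0)),
      inner_sub_right (dv D (q v)) (q v - q (s 0)), e1, e2]
  have hPli : LinearIndependent ℝ P := by
    have := (affineIndependent_iff_linearIndependent_vsub ℝ _ 0).1 (hp.affineIndependent s hs)
    exact this.comp (fun i : Fin d => (⟨i.succ, Fin.succ_ne_zero i⟩ : {x : Fin (d + 1) // x ≠ 0}))
      (fun i j hij => by simpa using hij)
  have hQli : LinearIndependent ℝ Q := by
    rw [Fintype.linearIndependent_iff]
    intro g hg i
    refine Fintype.linearIndependent_iff.1 hPli g ?_ i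
    refine ext_inner_left ℝ fun c => ?_
    obtain ⟨D, hc, hp0, hq0⟩ := hD c
    rw [inner_zero_right, inner_sum]
    have : ∑ i, inner ℝ c (g i • P i) = ∑ i, inner ℝ (dv D (q v)) (g i • Q i) := by
      refine Finset.sum_congr rfl fun i _ => ?_
      rw [inner_smul_right, inner_smul_right, ← h2 D hp0 hq0, hc]
    rw [this, ← inner_sum, hg, inner_zero_right]
  let bP : Basis (Fin d) ℝ (E d) :=
    Basis.mk hPli (hPli.span_eq_top_of_card_eq_finrank' (by simp)).ge
  let bQ : Basis (Fin d) ℝ (E d) :=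
    Basis.mk hQli (hQli.span_eq_top_of_card_eq_finrank' (by simp)).ge
  have hbP : ∀ i, bP i = P i := fun i => Basis.mk_apply _ _ i
  have hbQ : ∀ i, bQ i = Q i := fun i => Basis.mk_apply _ _ i
  let B : E d ≃ₗ[ℝ] E d := bQ.equiv bP (Equiv.refl _)
  have hB : ∀ i, B (Q i) = P i := by
    intro i
    rw [← hbQ, ← hbP]
    exact bQ.equiv_apply i bP (Equiv.refl _)
  -- `⟪c, B y⟫ = ⟪w, y⟫`
  have h3 : ∀ (D : Derivation ℚ ℝ ℝ), (∀ i, dv D (p (s i)) = 0) → (∀ i, dv D (q (s i)) = 0) →
      ∀ y, inner ℝ (dv D (p v)) (B y) = inner ℝ (dv D (q v)) y := by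
    intro D hp0 hq0 y
    have : (innerₗ (E d) (dv D (p v))) ∘ₗ B.toLinearMap = innerₗ (E d) (dv D (q v)) := by
      refine bQ.ext fun i => ?_
      show inner ℝ (dv D (p v)) (B (bQ i)) = inner ℝ (dv D (q v)) (bQ i)
      rw [hbQ, hB, h2 D hp0 hq0]
    exact congrArg (fun f : E d →ₗ[ℝ] ℝ => f y) this
  have h4 : p v - p (s 0) = B (q v - q (s 0)) := by
    refine ext_inner_left ℝ fun c => ?_
    obtain ⟨D, hc, hp0, hq0⟩ := hD c
    rw [← hc, h3 D hp0 hq0, h1 D hp0 hq0]
  -- the entries of `B` are constants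
  have h5 : ∀ (D : Derivation ℚ ℝ ℝ), (∀ i, dv D (p (s i)) = 0) → (∀ i, dv D (q (s i)) = 0) →
      ∀ k l, D ((B (EuclideanSpace.single k 1)) l) = 0 := by
    intro D hp0 hq0 k l
    let z : E d := WithLp.toLp 2 fun k => D ((B (EuclideanSpace.single k 1)) l)
    have hz : z = 0 := by
      have hlin : innerₗ (E d) z = 0 := by
        refine bQ.ext fun i => ?_
        show inner ℝ z (bQ i) = 0
        rw [hbQ]
        have e1 : (B (Q i)) l = ∑ k, (Q i) k * (B (EuclideanSpace.single k 1)) l := by
          conv_lhs => rw [sum_single (Q i)]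
          rw [map_sum]
          simp
        have hQ0 : ∀ k, D ((Q i) k) = 0 := by
          intro k
          have : dv D (Q i) = 0 := by
            simp only [Q]
            rw [dv_sub, hq0, hq0, sub_zero]
          exact congrArg (fun f : E d => f k) this
        have hP0 : D ((P i) l) = 0 := by
          have : dv D (P i) = 0 := by
            simp only [P]
            rw [dv_sub, hp0, hp0, sub_zero]
          exact congrArg (fun f : E d => f l) this
        rw [hB] at e1
        have e2 := congrArg D e1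
        rw [hP0, map_sum] at e2
        rw [PiLp.inner_apply, e2]
        refine Finset.sum_congr rfl fun k _ => ?_
        rw [Derivation.leibniz, hQ0, smul_zero, add_zero]
        simp only [z, RCLike.inner_apply, conj_trivial, smul_eq_mul]
      refine ext_inner_right ℝ fun y => ?_
      have := congrArg (fun f : E d →ₗ[ℝ] ℝ => f y) hlin
      simpa using this
    exact congrArg (fun f : E d => f k) hz
  -- `B w = c`
  have h6 : ∀ (D : Derivation ℚ ℝ ℝ), (∀ i, dv D (p (s i)) = 0) → (∀ i, dv D (q (s i)) = 0) →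
      dv D (p v) = B (dv D (q v)) := by
    intro D hp0 hq0
    have e1 := congrArg (dv D) h4
    rw [dv_sub, hp0, sub_zero] at e1
    have e2 := dv_linear D B.toLinearMap (h5 D hp0 hq0) (q v - q (s 0))
    rw [dv_sub, hq0, sub_zero] at e2
    exact e1.trans e2
  have h7 : ∀ w y, inner ℝ (B w) (B y) = inner ℝ w y := by
    intro w y
    obtain ⟨D, hc, hp0, hq0⟩ := hD (B w)
    have e1 := h6 D hp0 hq0
    rw [hc] at e1
    have e2 : dv D (q v) = w := (B.injective e1).symm
    have e3 := h3 D hp0 hq0 y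
    rw [hc, e2] at e3
    exact e3
  have h8 : ∀ i, p (s i) - p (s 0) = B (q (s i) - q (s 0)) := by
    intro i
    refine Fin.cases ?_ (fun i => ?_) i
    · simp
    · exact (hB i).symm
  have h9 : p (s i) - p (s j) = B (q (s i) - q (s j)) := by
    have e1 : p (s i) - p (s j) = (p (s i) - p (s 0)) - (p (s j) - p (s 0)) := by abel
    have e2 : q (s i) - q (s j) = (q (s i) - q (s 0)) - (q (s j) - q (s 0)) := by abel
    rw [e1, e2, map_sub, h8, h8]
  rw [dist_eq_norm, dist_eq_norm, h9]
  have h10 : ‖B (q (s i) - q (s j))‖ ^ 2 = ‖q (s i) - q (s j)‖ ^ 2 := by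
    rw [← real_inner_self_eq_norm_sq, ← real_inner_self_eq_norm_sq, h7]
  nlinarith [norm_nonneg (B (q (s i) - q (s j))), norm_nonneg (q (s i) - q (s j)),
    abs_eq_abs.1 ((sq_eq_sq_iff_abs_eq_abs _ _).1 h10) |>.elim id (fun h => by
      have h1 := norm_nonneg (B (q (s i) - q (s j)))
      have h2 := norm_nonneg (q (s i) - q (s j))
      linarith)]

/-- **(L3)** Two disjoint cliques with `d (d + 1) + 1` vertices joined by a perfect matching. -/
theorem linked_bars {V : Type} {d : ℕ} (G : SimpleGraph V) (a b : Fin (d * (d + 1) + 1) → V)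
    (ha : Function.Injective a) (hb : Function.Injective b) (hab : ∀ i j, a i ≠ b j)
    (hA : ∀ i j, i ≠ j → G.Adj (a i) (a j)) (hB : ∀ i j, i ≠ j → G.Adj (b i) (b j))
    (hm : ∀ i, G.Adj (a i) (b i)) (i j : Fin (d * (d + 1) + 1)) : Linked d G (a i) (b j) := by
  intro p q hp hq
  have hle : d + 1 ≤ d * (d + 1) + 1 := by nlinarith [Nat.zero_le d]
  have hfr : ∀ f : Fin (d * (d + 1) + 1) → V, Function.Injective f →
      (∀ i j, i ≠ j → G.Adj (f i) (f j)) → ∃ (R : E d ≃ₗᵢ[ℝ] E d) (c : E d),
        ∀ i, q (f i) = R (p (f i)) + c := by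
    intro f hf hcl
    have hd : ∀ i j, dist (p (f i)) (p (f j)) = dist (q (f i)) (q (f j)) := by
      intro i j
      by_cases hij : i = j
      · rw [hij, dist_self, dist_self]
      · exact hq _ _ (hcl i j hij)
    obtain ⟨R, c, _, h2⟩ := frame (fun i => p (f (Fin.castLE hle i)))
      (fun i => q (f (Fin.castLE hle i)))
      (hp.affineIndependent (fun i => f (Fin.castLE hle i))
        (fun x y hxy => Fin.castLE_injective hle (hf hxy))) (fun i j => hd _ _)
    exact ⟨R, c, fun i => h2 _ _ fun k => hd _ _⟩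
  obtain ⟨R1, c1, h1⟩ := hfr a ha hA
  obtain ⟨R2, c2, h2⟩ := hfr b hb hB
  let R : E d ≃ₗᵢ[ℝ] E d := R2.trans R1.symm
  let c : E d := R1.symm (c2 - c1)
  have hR : ∀ y, R1 (R y + c) = R2 y + (c2 - c1) := by
    intro y
    rw [map_add]
    simp [R, c]
  have h3 : ∀ i, dist (p (a i)) (p (b i)) = dist (p (a i)) (R (p (b i)) + c) := by
    intro i
    rw [hq _ _ (hm i), h1, h2, ← R1.dist_map (p (a i)), hR, dist_eq_norm, dist_eq_norm]
    congr 1
    abel
  obtain ⟨j0, hj0⟩ := exists_block (J := Fin (d * (d + 1) + 1)) (κ := Fin 2 × Fin d) hp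
    (fun y : Fin (d * (d + 1) + 1) × (Fin 2 × Fin d) =>
      (if y.2.1 = 0 then a y.1 else b y.1, y.2.2))
    (by
      rintro ⟨j, e, k⟩ ⟨j', e', k'⟩ h
      simp only [Prod.mk.injEq] at h
      obtain ⟨h, rfl⟩ := h
      by_cases he : e = 0
      · by_cases he' : e' = 0
        · rw [if_pos he, if_pos he'] at h
          rw [ha h, he, he']
        · rw [if_pos he, if_neg he'] at h
          exact absurd h (hab _ _)
      · by_cases he' : e' = 0
        · rw [if_neg he, if_pos he'] at h
          exact absurd h.symm (hab _ _)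
        · rw [if_neg he, if_neg he'] at h
          have e1 : e = 1 := by omega
          have e2 : e' = 1 := by omega
          rw [hb h, e1, e2])
    (Sum.elim (fun y : Fin d × Fin d => (R (EuclideanSpace.single y.1 1)) y.2)
      (fun k : Fin d => c k)) (by simp; nlinarith)
  set α := p (a j0) with hα
  set β := p (b j0) with hβ
  have hD : ∀ u w : E d, ∃ D : Derivation ℚ ℝ ℝ, dv D α = u ∧ dv D β = w ∧
      ∀ y, dv D (R y + c) = R (dv D y) := by
    intro u w
    obtain ⟨D, e1, e2, _⟩ := hj0 fun y => if y.1 = 0 then u y.2 else w y.2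
    refine ⟨D, ?_, ?_, fun y => ?_⟩
    · ext k
      have := e2 (0, k)
      simp only [if_true] at this
      exact this
    · ext k
      have := e2 (1, k)
      rw [if_neg (by simp : ¬ ((1 : Fin 2), k).1 = 0)] at this
      simpa [dv_apply, hβ] using this
    · have e3 := dv_linear D R.toLinearEquiv.toLinearMap (fun k l => e1 (Sum.inl (k, l))) y
      have e4 : dv D c = 0 := by
        ext k
        exact e1 (Sum.inr k)
      rw [dv_add, e4, add_zero]
      exact e3
  have h4 : β = R β + c := by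
    have : α - β = α - (R β + c) := by
      refine ext_inner_left ℝ fun u => ?_
      obtain ⟨D, e1, e2, e3⟩ := hD u 0
      have := der_dist D α β α (R β + c) (h3 j0)
      rw [e3, e1, e2, map_zero, sub_zero] at this
      exact this
    exact sub_right_injective this
  have h5 : ∀ w, R w = w := by
    intro w
    obtain ⟨D, _, e2, e3⟩ := hD 0 w
    have := congrArg (dv D) h4
    rw [e3, e2] at this
    exact this.symm
  have h6 : c = 0 := by
    rw [h5] at h4
    simpa using h4.symm
  have h7 : ∀ y, R2 y + c2 = R1 y + c1 := by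
    intro y
    have := hR y
    rw [h5, h6, add_zero] at this
    rw [this]
    abel
  rw [h1, h2, h7, dist_add_right, R1.dist_map]

end Pool.Rgd
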