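import Pool.Agent.Rgd.Defs

/-!
# The degree sum condition
-/

set_option autoImplicit false

namespace Pool.Rgd

open Finset Classical

/-- Proof. Let `I` be independent in `H`, `I.card = t`; it is independent in `G ≤ H`. Double
counting: the sum of the degrees over `I` is `∑ w, |N(w) ∩ I|`, so at least `ε n / t` vertices `w`
have at least `d + 1` neighbours in `I`. Each subset of `I` of size `d + 1` has at most
`d (d + 1)` common neighbours: otherwise rule `r2` makes it a clique. -/
theorem ore_independent (d t : ℕ) (hd : 0 < d) (ε : ℝ) (hε : 0 < ε) : ∃ n0 : ℕ,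
    ∀ {V : Type} [Fintype V] (G H : SimpleGraph V) (C : ℕ), G ≤ H → Rules d C H →
      OreCond d t ε G → n0 ≤ Fintype.card V →
      ∀ I : Finset V, I.card = t → ∃ a ∈ I, ∃ b ∈ I, H.Adj a b := by
  refine ⟨⌈((t * (2 ^ t * (d * (d + 1))) : ℕ) : ℝ) / ε⌉₊ + 1, ?_⟩
  intro V _ G H C hGH hR hO hn I hI
  by_contra hcon
  push Not at hcon
  have hdeg := hO I hI fun a ha b hb h => hcon a ha b hb (hGH h)
  -- double counting
  have hsum : ∑ v ∈ I, ((G.neighborSet v).ncard : ℝ)
      = ∑ w : V, (((I.filter fun v => G.Adj v w).card : ℕ) : ℝ) := by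
    have h1 : ∀ v, (G.neighborSet v).ncard = ∑ w : V, if G.Adj v w then 1 else 0 := by
      intro v
      rw [← Finset.card_filter, Set.ncard_eq_toFinset_card']
      congr 1
      ext w
      simp
    have h2 : ∀ w, (I.filter fun v => G.Adj v w).card = ∑ v ∈ I, if G.Adj v w then 1 else 0 := by
      intro w
      rw [← Finset.card_filter]
    simp_rw [h1, h2]
    push_cast
    rw [Finset.sum_comm]
  set W : Finset V := univ.filter fun w => d + 1 ≤ (I.filter fun v => G.Adj v w).card with hW
  have hle : ∑ w : V, (((I.filter fun v => G.Adj v w).card : ℕ) : ℝ)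
      ≤ (d : ℝ) * Fintype.card V + t * W.card := by
    have h3 : ∀ w : V, (((I.filter fun v => G.Adj v w).card : ℕ) : ℝ)
        ≤ (d : ℝ) + (if d + 1 ≤ (I.filter fun v => G.Adj v w).card then (t : ℝ) else 0) := by
      intro w
      split_ifs with h
      · have : ((I.filter fun v => G.Adj v w).card : ℝ) ≤ t := by
          rw [← hI]
          exact_mod_cast Finset.card_filter_le _ _
        have : (0 : ℝ) ≤ d := Nat.cast_nonneg _
        linarith
      · have : ((I.filter fun v => G.Adj v w).card : ℝ) ≤ d := by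
          exact_mod_cast (by omega : (I.filter fun v => G.Adj v w).card ≤ d)
        linarith
    refine (Finset.sum_le_sum fun w _ => h3 w).trans (le_of_eq ?_)
    rw [Finset.sum_add_distrib, ← Finset.sum_filter, ← hW]
    simp only [Finset.sum_const, Finset.card_univ, nsmul_eq_mul]
    ring
  -- the number of vertices with many neighbours in `I`
  have hWc : W.card ≤ 2 ^ t * (d * (d + 1)) := by
    have hsub : W ⊆ (I.powersetCard (d + 1)).biUnion
        fun S => univ.filter fun w => ∀ s ∈ S, G.Adj s w := by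
      intro w hw
      have hw' : d + 1 ≤ (I.filter fun v => G.Adj v w).card := (Finset.mem_filter.1 hw).2
      obtain ⟨S, hS, hSc⟩ := Finset.exists_subset_card_eq hw'
      refine Finset.mem_biUnion.2 ⟨S, Finset.mem_powersetCard.2
        ⟨hS.trans (Finset.filter_subset _ _), hSc⟩, ?_⟩
      exact Finset.mem_filter.2 ⟨Finset.mem_univ _, fun s hs => (Finset.mem_filter.1 (hS hs)).2⟩
    refine (Finset.card_le_card hsub).trans ?_
    refine (Finset.card_biUnion_le_card_mul _ _ (d * (d + 1)) ?_).trans ?_
    · intro S hS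
      obtain ⟨hSI, hSc⟩ := Finset.mem_powersetCard.1 hS
      by_contra hbig
      push Not at hbig
      have hcl := hR.r2 S _ hSc hbig fun s hs w hw => hGH ((Finset.mem_filter.1 hw).2 s hs)
      obtain ⟨a, ha, b, hb, hab⟩ := Finset.one_lt_card.1 (show 1 < S.card by omega)
      exact hcon a (hSI ha) b (hSI hb) (hcl a ha b hb hab)
    · refine Nat.mul_le_mul_right _ ?_
      rw [Finset.card_powersetCard, hI]
      exact Nat.choose_le_two_pow _ _
  -- conclusion
  have hεn : ε * (Fintype.card V : ℝ) ≤ t * W.card := by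
    have := hdeg.trans (hsum.le.trans hle)
    linarith
  have hWr : (W.card : ℝ) ≤ ((2 ^ t * (d * (d + 1)) : ℕ) : ℝ) := by exact_mod_cast hWc
  have h4 : ε * (Fintype.card V : ℝ) ≤ ((t * (2 ^ t * (d * (d + 1))) : ℕ) : ℝ) := by
    refine hεn.trans ?_
    push_cast at hWr ⊢
    exact mul_le_mul_of_nonneg_left hWr (Nat.cast_nonneg _)
  have h5 : ((t * (2 ^ t * (d * (d + 1))) : ℕ) : ℝ) / ε < Fintype.card V := by
    refine lt_of_le_of_lt (Nat.le_ceil _) ?_
    exact_mod_cast (by omega :
      ⌈((t * (2 ^ t * (d * (d + 1))) : ℕ) : ℝ) / ε⌉₊ < Fintype.card V)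
  rw [div_lt_iff₀ hε] at h5
  linarith

end Pool.Rgd
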