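import Pool.Agent.Rgd.AlgCorrect
import Pool.Agent.Rgd.ClosedRules
import Pool.Agent.Rgd.Kernel
import Pool.Agent.Rgd.Ore

/-!
# The local closure decides generic global rigidity of dense graphs
-/

set_option autoImplicit false

namespace Pool.Rgd

/-- complete local closure implies generic global rigidity, for every graph -/
theorem ggr_of_clos_complete (d C : ℕ) {V : Type} [Fintype V] (G : SimpleGraph V)
    (h : ∀ u v, u ≠ v → (clos d C G).Adj u v) : GGR d G := by
  rw [← ggr_clos_iff d C G]
  intro p q _ hq u v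
  by_cases huv : u = v
  · rw [huv, dist_self, dist_self]
  · exact hq u v (h u v huv)

/-- the converse for dense graphs -/
theorem exists_constant (d t : ℕ) (hd : 0 < d) (ε : ℝ) (hε : 0 < ε) : ∃ C : ℕ,
    ∀ {V : Type} [Fintype V] (G : SimpleGraph V), OreCond d t ε G → GGR d G →
      ∀ u v, u ≠ v → (clos d C G).Adj u v := by
  obtain ⟨C1, hC1⟩ := structure_theorem d t
  obtain ⟨n0, hn0⟩ := ore_independent d t hd ε hε
  refine ⟨max C1 (max n0 (2 * (d * (d + 1) + 1) + d + 3)), fun {V} _ G hG hr => ?_⟩
  set C := max C1 (max n0 (2 * (d * (d + 1) + 1) + d + 3)) with hC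
  have hR : Rules d C (clos d C G) := (closed_clos d C G).rules (by omega)
  have hr' : GGR d (clos d C G) := (ggr_clos_iff d C G).2 hr
  by_cases hn : n0 ≤ Fintype.card V
  · refine hC1 C (by omega) (clos d C G) hR (fun I hI => ?_) hr'
    have hind := hn0 G (clos d C G) C (le_clos d C G) hR hG hn
    obtain ⟨J, hJI, hJ⟩ := Finset.exists_subset_card_eq (s := I) (n := t) (by omega)
    obtain ⟨a, ha, b, hb, hab⟩ := hind J hJ
    exact ⟨a, hJI ha, b, hJI hb, hab⟩
  · intro u v huv
    have h4 := hR.r4 Finset.univ (by rw [Finset.card_univ]; omega) (by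
      intro p q hp hq a b
      have hinj : Function.Injective fun x : V => (⟨x, by simp⟩ : ((Finset.univ : Finset V) : Set V)) := by
        intro x y hxy
        simpa using hxy
      exact hr' (fun x => p ⟨x, by simp⟩) (fun x => q ⟨x, by simp⟩) (hp.comp _ hinj)
        (fun x y hxy => hq ⟨x, by simp⟩ ⟨y, by simp⟩ (by simpa using hxy)) a.1 b.1)
    exact h4 u (by simp) v (by simp) huv

end Pool.Rgd
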